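import Mathlib

open Finset

namespace LerchPrime

/-- a vector of `n` lanes of 64 bits packed into a natural number -/
def enc (n : ℕ) (f : ℕ → ℕ) : ℕ := ∑ i ∈ range n, f i * 2 ^ (64 * i)

theorem enc_succ (n : ℕ) (f : ℕ → ℕ) : enc (n + 1) f = enc n f + f n * 2 ^ (64 * n) := by
  rw [enc, Finset.sum_range_succ, enc]

theorem enc_congr {n : ℕ} {f g : ℕ → ℕ} (h : ∀ i < n, f i = g i) : enc n f = enc n g := by
  apply Finset.sum_congr rfl
  intro i hi
  rw [h i (mem_range.mp hi)]

theorem enc_add (n : ℕ) (f g : ℕ → ℕ) : enc n f + enc n g = enc n (fun i => f i + g i) := by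
  rw [enc, enc, enc, ← Finset.sum_add_distrib]
  apply Finset.sum_congr rfl
  intro i _
  ring

theorem enc_mul (n c : ℕ) (f : ℕ → ℕ) : c * enc n f = enc n (fun i => c * f i) := by
  rw [enc, enc, Finset.mul_sum]
  apply Finset.sum_congr rfl
  intro i _
  ring

theorem enc_sub {n : ℕ} {f g : ℕ → ℕ} (h : ∀ i < n, g i ≤ f i) :
    enc n f - enc n g = enc n (fun i => f i - g i) := by
  have h1 : enc n f = enc n g + enc n (fun i => f i - g i) := by
    rw [enc_add]
    apply enc_congr
    intro i hi
    have := h i hi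
    omega
  omega

theorem enc_lt {n : ℕ} {f : ℕ → ℕ} (h : ∀ i < n, f i < 2 ^ 64) : enc n f < 2 ^ (64 * n) := by
  induction n with
  | zero => simp [enc]
  | succ n ih =>
    rw [enc_succ]
    have h1 := ih (fun i hi => h i (by omega))
    have h2 := h n (by omega)
    have h3 : (f n + 1) * 2 ^ (64 * n) ≤ 2 ^ 64 * 2 ^ (64 * n) := Nat.mul_le_mul_right _ h2
    calc enc n f + f n * 2 ^ (64 * n) < 2 ^ (64 * n) + f n * 2 ^ (64 * n) := by omega
      _ = (f n + 1) * 2 ^ (64 * n) := by ring
      _ ≤ 2 ^ 64 * 2 ^ (64 * n) := h3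
      _ = 2 ^ (64 * (n + 1)) := by rw [← pow_add]; congr 1; ring

theorem land_add_mul {a b c d k : ℕ} (ha : a < 2 ^ k) (hc : c < 2 ^ k) :
    Nat.land (a + b * 2 ^ k) (c + d * 2 ^ k) = Nat.land a c + Nat.land b d * 2 ^ k := by
  have e1 : a + b * 2 ^ k = 2 ^ k * b + a := by ring
  have e2 : c + d * 2 ^ k = 2 ^ k * d + c := by ring
  have e3 : Nat.land a c + Nat.land b d * 2 ^ k = 2 ^ k * (b &&& d) + (a &&& c) := by
    show (a &&& c) + (b &&& d) * 2 ^ k = _
    ring
  have hac : a &&& c < 2 ^ k := Nat.and_lt_two_pow _ hc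
  rw [e1, e2, e3]
  show (2 ^ k * b + a) &&& (2 ^ k * d + c) = _
  apply Nat.eq_of_testBit_eq
  intro j
  rw [Nat.testBit_and, Nat.testBit_two_pow_mul_add _ ha, Nat.testBit_two_pow_mul_add _ hc,
    Nat.testBit_two_pow_mul_add _ hac]
  split_ifs
  · rw [Nat.testBit_and]
  · rw [Nat.testBit_and]

theorem enc_land {n : ℕ} {f g : ℕ → ℕ} (hf : ∀ i < n, f i < 2 ^ 64) (hg : ∀ i < n, g i < 2 ^ 64) :
    Nat.land (enc n f) (enc n g) = enc n (fun i => Nat.land (f i) (g i)) := by
  induction n with
  | zero => simp [enc]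
  | succ n ih =>
    rw [enc_succ, enc_succ, enc_succ, land_add_mul, ih]
    · intro i hi; exact hf i (by omega)
    · intro i hi; exact hg i (by omega)
    · exact enc_lt (fun i hi => hf i (by omega))
    · exact enc_lt (fun i hi => hg i (by omega))

theorem enc_shiftRight (n k : ℕ) (f : ℕ → ℕ) :
    Nat.shiftRight (enc n (fun i => 2 ^ k * f i)) k = enc n f := by
  rw [← enc_mul]
  show (2 ^ k * enc n f) >>> k = _
  rw [Nat.shiftRight_eq_div_pow, Nat.mul_div_cancel_left _ (by positivity)]

theorem enc_const (n c : ℕ) : enc n (fun _ => c) = c * ((2 ^ (64 * n) - 1) / (2 ^ 64 - 1)) := by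
  have h : (fun _ : ℕ => c) = (fun i => c * (fun _ : ℕ => 1) i) := by
    funext i; simp
  rw [h, ← enc_mul]
  congr 1
  rw [enc]
  have h1 := Nat.geomSum_eq (m := 2 ^ 64) (by norm_num) n
  rw [show (2 ^ 64) ^ n = 2 ^ (64 * n) by rw [← pow_mul]] at h1
  rw [← h1]
  apply Finset.sum_congr rfl
  intro i _
  rw [one_mul, pow_mul]

/-- extraction of a lane -/
theorem enc_lane {m k : ℕ} {c : ℕ → ℕ} (hk : k < m) (hc : ∀ i < m, c i < 2 ^ 64) :
    enc m c / 2 ^ (64 * k) % 2 ^ 64 = c k := by
  obtain ⟨r, rfl⟩ := Nat.exists_eq_add_of_lt hk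
  have h1 : enc (k + r + 1) c = enc k c + 2 ^ (64 * k) * (c k + 2 ^ 64 * enc r (fun i => c (k + 1 + i))) := by
    have e1 : k + r + 1 = (k + 1) + r := by omega
    rw [e1]
    unfold enc
    rw [Finset.sum_range_add, Finset.sum_range_succ, Nat.mul_add, Finset.mul_sum, Finset.mul_sum,
      ← Nat.add_assoc]
    congr 1
    · ring
    · apply Finset.sum_congr rfl
      intro i _
      rw [show 64 * (k + 1 + i) = 64 * k + (64 + 64 * i) by ring, pow_add, pow_add]
      ring
  have h2 : enc k c < 2 ^ (64 * k) := enc_lt (fun i hi => hc i (by omega))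
  rw [h1, Nat.add_mul_div_left _ _ (by positivity), Nat.div_eq_of_lt h2, Nat.zero_add,
    Nat.add_mul_mod_self_left, Nat.mod_eq_of_lt (hc k (by omega))]

/-- inner product through Kronecker substitution -/
theorem enc_inner {n : ℕ} (hn : 1 ≤ n) {f g : ℕ → ℕ} (F G : ℕ) (hf : ∀ i < n, f i ≤ F)
    (hg : ∀ i < n, g i ≤ G) (hFG : n * (F * G) < 2 ^ 64) :
    Nat.mod (Nat.shiftRight (Nat.mul (enc n f) (enc n g)) (64 * (n - 1))) (2 ^ 64) =
      ∑ i ∈ range n, f i * g (n - 1 - i) := by
  classical
  set f' : ℕ → ℕ := fun i => if i < n then f i else 0 with hf'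
  set g' : ℕ → ℕ := fun i => if i < n then g i else 0 with hg'
  set c : ℕ → ℕ := fun s => ∑ x ∈ antidiagonal s, f' x.1 * g' x.2 with hc
  have hprod : enc n f * enc n g = enc (2 * n) c := by
    set P : Polynomial ℕ := ∑ i ∈ range n, Polynomial.monomial i (f i) with hP
    set R : Polynomial ℕ := ∑ i ∈ range n, Polynomial.monomial i (g i) with hR
    have hPc : ∀ i, P.coeff i = f' i := by
      intro i
      rw [hP, Polynomial.finsetSum_coeff]
      simp only [Polynomial.coeff_monomial]
      rw [Finset.sum_ite_eq' (range n) i]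
      simp [hf']
    have hRc : ∀ i, R.coeff i = g' i := by
      intro i
      rw [hR, Polynomial.finsetSum_coeff]
      simp only [Polynomial.coeff_monomial]
      rw [Finset.sum_ite_eq' (range n) i]
      simp [hg']
    have hPe : P.eval (2 ^ 64) = enc n f := by
      rw [hP, Polynomial.eval_finsetSum, enc]
      apply Finset.sum_congr rfl
      intro i _
      rw [Polynomial.eval_monomial, ← pow_mul]
    have hRe : R.eval (2 ^ 64) = enc n g := by
      rw [hR, Polynomial.eval_finsetSum, enc]
      apply Finset.sum_congr rfl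
      intro i _
      rw [Polynomial.eval_monomial, ← pow_mul]
    have hPd : P.natDegree < n := by
      rw [Nat.lt_iff_le_pred (by omega)]
      rw [Polynomial.natDegree_le_iff_coeff_eq_zero]
      intro m hm
      rw [hPc, hf']
      simp; omega
    have hRd : R.natDegree < n := by
      rw [Nat.lt_iff_le_pred (by omega)]
      rw [Polynomial.natDegree_le_iff_coeff_eq_zero]
      intro m hm
      rw [hRc, hg']
      simp; omega
    have hd : (P * R).natDegree < 2 * n := by
      have := Polynomial.natDegree_mul_le (p := P) (q := R)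
      omega
    rw [← hPe, ← hRe, ← Polynomial.eval_mul, Polynomial.eval_eq_sum_range' hd, enc]
    apply Finset.sum_congr rfl
    intro s _
    rw [Polynomial.coeff_mul, ← pow_mul]
    congr 1
    rw [hc]
    apply Finset.sum_congr rfl
    intro x _
    rw [hPc, hRc]
  have hcb : ∀ s < 2 * n, c s < 2 ^ 64 := by
    intro s _
    refine lt_of_le_of_lt ?_ hFG
    have h1 : c s = ∑ i ∈ range (s + 1), f' i * g' (s - i) := by
      rw [hc]
      exact Finset.Nat.sum_antidiagonal_eq_sum_range_succ (fun i j => f' i * g' j) s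
    rw [h1]
    calc ∑ i ∈ range (s + 1), f' i * g' (s - i) ≤ ∑ i ∈ range (s + 1), (if i < n then F * G else 0) := by
          apply Finset.sum_le_sum
          intro i _
          simp only [hf', hg']
          split_ifs with h2 h3
          · exact Nat.mul_le_mul (hf i h2) (hg _ h3)
          · simp
          · simp
          · simp
      _ = ((range (s + 1)).filter (fun i => i < n)).card * (F * G) := by
          rw [← Finset.sum_filter, Finset.sum_const, smul_eq_mul]
      _ ≤ n * (F * G) := by
          apply Nat.mul_le_mul_right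
          calc ((range (s + 1)).filter (fun i => i < n)).card ≤ (range n).card := by
                apply Finset.card_le_card
                intro i hi
                simp only [mem_filter] at hi
                exact mem_range.mpr hi.2
            _ = n := card_range n
  show ((enc n f * enc n g) >>> (64 * (n - 1))) % 2 ^ 64 = _
  rw [hprod, Nat.shiftRight_eq_div_pow, enc_lane (by omega) hcb, hc]
  simp only
  rw [Finset.Nat.sum_antidiagonal_eq_sum_range_succ (fun i j => f' i * g' j) (n - 1),
    show (n - 1).succ = n by omega]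
  apply Finset.sum_congr rfl
  intro i hi
  simp only [mem_range] at hi
  simp only [hf', hg']
  rw [if_pos hi, if_pos (by omega)]

end LerchPrime
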