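import Mathlib
import Pool.Agent.H90.Lerch.Enc

open Finset

namespace LerchPrime

/-- forced evaluation -/
def force (v : ℕ) (k : ℕ → Bool) : Bool := Nat.rec (k 0) (fun m _ => k (Nat.succ m)) v

theorem force_eq (v : ℕ) (k : ℕ → Bool) : force v k = k v := by
  cases v <;> rfl

/-! vector operations; `O` is the vector of ones -/

def redp (C3 C4 R : ℕ) : ℕ :=
  Nat.sub R (Nat.mul 42447347 (Nat.shiftRight (Nat.land (Nat.add R C3) C4) 27))
def nX (X2 b M : ℕ) : ℕ :=
  Nat.sub (Nat.add X2 (Nat.mul 42447347 b)) (Nat.mul 2 (Nat.land X2 M))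
def hY (O Y : ℕ) : ℕ := Nat.shiftRight (Nat.add Y (Nat.mul 42447347 (Nat.land Y O))) 1
def nZ (C3 C4 Cq Z YM : ℕ) : ℕ := redp C3 C4 (redp C3 C4 (Nat.add (Nat.add Z Cq) YM))

def st3 (O C3 C4 Cq X2 Y Z b M : ℕ) (k : ℕ → ℕ → ℕ → Bool) : Bool :=
  force (nX X2 b M) fun X' =>
  force (nX (hY O Y) b M) fun Y' =>
  force (nZ C3 C4 Cq Z (Nat.land (hY O Y) M)) fun Z' =>
  k X' Y' Z'
def st2 (O C3 C4 Cq X2 Y Z G : ℕ) (k : ℕ → ℕ → ℕ → Bool) : Bool :=
  st3 O C3 C4 Cq X2 Y Z (Nat.shiftRight G 26) (Nat.sub G (Nat.shiftRight G 26)) k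
def st1 (O C1 C2 C3 C4 Cq X2 Y Z : ℕ) (k : ℕ → ℕ → ℕ → Bool) : Bool :=
  st2 O C3 C4 Cq X2 Y Z (Nat.land (Nat.add X2 C1) C2) k

/-- the loop evaluated by the kernel (`512` lanes) -/
def run (fin : ℕ → ℕ → ℕ → ℕ → ℕ → Bool) (O C1 C2 C3 C4 Cq : ℕ) (n : ℕ) :
    ℕ → ℕ → ℕ → ℕ → ℕ → Bool :=
  Nat.rec (fun X Y Z W D => fin X Y Z W D) (fun _ ih X Y Z W D =>
    force (Nat.add W (Nat.add (Nat.mul 2 Z) Y)) fun W' =>
    force (Nat.add D (Nat.mod (Nat.shiftRight (Nat.mul Z (Nat.add Z Y)) 32704)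
      18446744073709551616)) fun D' =>
    st1 O C1 C2 C3 C4 Cq (Nat.mul 2 X) Y Z fun X' Y' Z' => ih X' Y' Z' W' D') n

/-- number of lanes -/
def NL : ℕ := 512

theorem NL_eq : NL = 512 := rfl

def ONE : ℕ := (2 ^ (64 * NL) - 1) / (2 ^ 64 - 1)

theorem ONE_eq (c : ℕ) : enc NL (fun _ => c) = c * ONE := by
  rw [enc_const, ONE]

/-- Fermat quotient of `2` modulo `p` -/
abbrev Q2 : ℕ := 40742170

/-- vector state -/
abbrev VS : Type := ℕ × ℕ × ℕ × ℕ × ℕ

def vb (X : ℕ) : ℕ := Nat.shiftRight (Nat.land (Nat.add (Nat.mul 2 X) (45885190 * ONE)) (2 ^ 26 * ONE)) 26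
def vM (X : ℕ) : ℕ := Nat.sub (Nat.land (Nat.add (Nat.mul 2 X) (45885190 * ONE)) (2 ^ 26 * ONE)) (vb X)

/-- one step on vectors -/
def vstep (s : VS) : VS :=
  (nX (Nat.mul 2 s.1) (vb s.1) (vM s.1),
   nX (hY ONE s.2.1) (vb s.1) (vM s.1),
   nZ (91770381 * ONE) (2 ^ 27 * ONE) (Q2 * ONE) s.2.2.1 (Nat.land (hY ONE s.2.1) (vM s.1)),
   Nat.add s.2.2.2.1 (Nat.add (Nat.mul 2 s.2.2.1) s.2.1),
   Nat.add s.2.2.2.2 (Nat.mod (Nat.shiftRight (Nat.mul s.2.2.1 (Nat.add s.2.2.1 s.2.1)) 32704)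
      18446744073709551616))

theorem run_eq (fin : ℕ → ℕ → ℕ → ℕ → ℕ → Bool) (n X Y Z W D : ℕ) :
    run fin ONE (45885190 * ONE) (2 ^ 26 * ONE) (91770381 * ONE) (2 ^ 27 * ONE) (Q2 * ONE)
      n X Y Z W D =
    fin (vstep^[n] (X, Y, Z, W, D)).1 (vstep^[n] (X, Y, Z, W, D)).2.1
      (vstep^[n] (X, Y, Z, W, D)).2.2.1 (vstep^[n] (X, Y, Z, W, D)).2.2.2.1
      (vstep^[n] (X, Y, Z, W, D)).2.2.2.2 := by
  induction n generalizing X Y Z W D with
  | zero => rfl
  | succ n ih =>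
    rw [Function.iterate_succ_apply]
    have h1 : run fin ONE (45885190 * ONE) (2 ^ 26 * ONE) (91770381 * ONE) (2 ^ 27 * ONE)
        (Q2 * ONE) (n + 1) X Y Z W D =
      force (Nat.add W (Nat.add (Nat.mul 2 Z) Y)) fun W' =>
      force (Nat.add D (Nat.mod (Nat.shiftRight (Nat.mul Z (Nat.add Z Y)) 32704)
        18446744073709551616)) fun D' =>
      st1 ONE (45885190 * ONE) (2 ^ 26 * ONE) (91770381 * ONE) (2 ^ 27 * ONE)
        (Q2 * ONE) (Nat.mul 2 X) Y Z fun X' Y' Z' =>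
          run fin ONE (45885190 * ONE) (2 ^ 26 * ONE) (91770381 * ONE) (2 ^ 27 * ONE)
            (Q2 * ONE) n X' Y' Z' W' D' := rfl
    rw [h1, force_eq, force_eq, st1, st2, st3, force_eq, force_eq, force_eq, ih]
    rfl

/-! lane-wise meaning -/

theorem land_two_pow {v k : ℕ} (hv : v < 2 ^ (k + 1)) :
    Nat.land v (2 ^ k) = 2 ^ k * (if 2 ^ k ≤ v then 1 else 0) := by
  show v &&& 2 ^ k = _
  rw [Nat.and_two_pow, Nat.mul_comm]
  congr 1
  rw [Nat.testBit_eq_decide_div_mod_eq]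
  split_ifs with h
  · have : v / 2 ^ k = 1 := by
      apply Nat.div_eq_of_lt_le
      · omega
      · calc v < 2 ^ (k + 1) := hv
          _ = (1 + 1) * 2 ^ k := by ring
    rw [this]; rfl
  · have : v / 2 ^ k = 0 := Nat.div_eq_of_lt (by omega)
    rw [this]; rfl

theorem enc_const_land {n k c : ℕ} {f : ℕ → ℕ} (hk : k < 63) (hf : ∀ i < n, f i + c < 2 ^ (k + 1)) :
    Nat.land (Nat.add (enc n f) (enc n (fun _ => c))) (enc n (fun _ => 2 ^ k)) =
      enc n (fun i => 2 ^ k * (if 2 ^ k ≤ f i + c then 1 else 0)) := by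
  have h1 : Nat.add (enc n f) (enc n (fun _ => c)) = enc n (fun i => f i + c) := enc_add n f _
  have h2 : 2 ^ (k + 1) ≤ 2 ^ 64 := Nat.pow_le_pow_right (by norm_num) (by omega)
  have h3 : 2 ^ k < 2 ^ 64 := Nat.pow_lt_pow_right (by norm_num) (by omega)
  rw [h1, enc_land]
  · apply enc_congr
    intro i hi
    exact land_two_pow (hf i hi)
  · intro i hi
    exact lt_of_lt_of_le (hf i hi) h2
  · intro i hi
    exact h3

theorem redp_enc {f : ℕ → ℕ} (hf : ∀ i < NL, f i < 2 ^ 27) :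
    redp (91770381 * ONE) (2 ^ 27 * ONE) (enc NL f) =
      enc NL (fun i => if 42447347 ≤ f i then f i - 42447347 else f i) := by
  rw [redp, ← ONE_eq, ← ONE_eq, enc_const_land (by norm_num) (by
    intro i hi
    have := hf i hi
    norm_num at this ⊢
    omega), enc_shiftRight]
  show enc NL f - 42447347 * enc NL _ = _
  rw [enc_mul, enc_sub]
  · apply enc_congr
    intro i hi
    have e : (2 ^ 27 ≤ f i + 91770381) ↔ 42447347 ≤ f i := by norm_num; omega
    simp only [e]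
    split_ifs <;> simp
  · intro i hi
    have e : (2 ^ 27 ≤ f i + 91770381) ↔ 42447347 ≤ f i := by norm_num; omega
    simp only [e]
    split_ifs with h
    · omega
    · omega

/-- scalar step -/
def sj (y : ℕ) : ℕ := (y + 42447347 * (y % 2)) / 2
def sX (a : ℕ) : ℕ := if 21223674 ≤ 2 * a then 42447347 - 2 * a else 2 * a
def sY (a y : ℕ) : ℕ := if 21223674 ≤ 2 * a then 42447347 - sj y else sj y
def sred (r : ℕ) : ℕ := if 42447347 ≤ r then r - 42447347 else r
def sZ (a y z : ℕ) : ℕ := sred (sred (z + Q2 + (if 21223674 ≤ 2 * a then sj y else 0)))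
def sstep (s : ℕ × ℕ × ℕ) : ℕ × ℕ × ℕ := (sX s.1, sY s.1 s.2.1, sZ s.1 s.2.1 s.2.2)

/-- admissible lane states -/
def ok (s : ℕ × ℕ × ℕ) : Prop :=
  1 ≤ s.1 ∧ s.1 ≤ 21223673 ∧ 1 ≤ s.2.1 ∧ s.2.1 < 42447347 ∧ s.2.2 < 42447347

theorem sj_two (y : ℕ) : 2 * sj y = y + 42447347 * (y % 2) := by
  rw [sj]
  omega

theorem ok_sstep {s : ℕ × ℕ × ℕ} (h : ok s) : ok (sstep s) := by
  obtain ⟨h1, h2, h3, h4, h5⟩ := h
  have hj := sj_two s.2.1
  simp only [ok, sstep, sX, sY, sZ, sred, Q2]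
  refine ⟨?_, ?_, ?_, ?_, ?_⟩
  · split_ifs <;> omega
  · split_ifs <;> omega
  · split_ifs <;> omega
  · split_ifs <;> omega
  · split_ifs <;> omega

theorem vb_enc {a : ℕ → ℕ} (ha : ∀ i < NL, a i ≤ 21223673) :
    vb (enc NL a) = enc NL (fun i => if 21223674 ≤ 2 * a i then 1 else 0) := by
  have h2 : Nat.mul 2 (enc NL a) = enc NL (fun i => 2 * a i) := enc_mul NL 2 a
  rw [vb, h2, ← ONE_eq, ← ONE_eq, enc_const_land (by norm_num) (by
    intro i hi
    have := ha i hi
    norm_num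
    omega), enc_shiftRight]
  apply enc_congr
  intro i hi
  have e : (2 ^ 26 ≤ 2 * a i + 45885190) ↔ 21223674 ≤ 2 * a i := by norm_num; omega
  simp only [e]

theorem vM_enc {a : ℕ → ℕ} (ha : ∀ i < NL, a i ≤ 21223673) :
    vM (enc NL a) = enc NL (fun i => if 21223674 ≤ 2 * a i then 2 ^ 26 - 1 else 0) := by
  have h2 : Nat.mul 2 (enc NL a) = enc NL (fun i => 2 * a i) := enc_mul NL 2 a
  rw [vM, vb_enc ha, h2, ← ONE_eq, ← ONE_eq, enc_const_land (by norm_num) (by
    intro i hi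
    have := ha i hi
    norm_num
    omega)]
  show enc NL _ - enc NL _ = _
  rw [enc_sub]
  · apply enc_congr
    intro i hi
    have e : (2 ^ 26 ≤ 2 * a i + 45885190) ↔ 21223674 ≤ 2 * a i := by norm_num; omega
    simp only [e]
    split_ifs <;> simp
  · intro i hi
    have e : (2 ^ 26 ≤ 2 * a i + 45885190) ↔ 21223674 ≤ 2 * a i := by norm_num; omega
    simp only [e]
    split_ifs <;> simp

theorem land_mask_enc {a v : ℕ → ℕ} (ha : ∀ i < NL, a i ≤ 21223673)
    (hv : ∀ i < NL, v i < 2 ^ 26) :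
    Nat.land (enc NL v) (vM (enc NL a)) = enc NL (fun i => if 21223674 ≤ 2 * a i then v i else 0) := by
  rw [vM_enc ha, enc_land]
  · apply enc_congr
    intro i hi
    split_ifs with h
    · show v i &&& (2 ^ 26 - 1) = v i
      rw [Nat.and_two_pow_sub_one_eq_mod, Nat.mod_eq_of_lt (hv i hi)]
    · show v i &&& 0 = 0
      simp
  · intro i hi
    exact lt_trans (hv i hi) (by norm_num)
  · intro i hi
    split_ifs <;> norm_num

theorem nX_enc {a v : ℕ → ℕ} (ha : ∀ i < NL, a i ≤ 21223673)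
    (hv : ∀ i < NL, v i < 42447347) :
    nX (enc NL v) (vb (enc NL a)) (vM (enc NL a)) =
      enc NL (fun i => if 21223674 ≤ 2 * a i then 42447347 - v i else v i) := by
  rw [nX, land_mask_enc ha (fun i hi => lt_trans (hv i hi) (by norm_num)), vb_enc ha]
  show enc NL v + 42447347 * enc NL _ - 2 * enc NL _ = _
  rw [enc_mul, enc_mul, enc_add, enc_sub]
  · apply enc_congr
    intro i hi
    have := hv i hi
    split_ifs <;> omega
  · intro i hi
    have := hv i hi
    split_ifs <;> omega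

theorem hY_enc {y : ℕ → ℕ} (hy : ∀ i < NL, y i < 42447347) :
    hY ONE (enc NL y) = enc NL (fun i => sj (y i)) := by
  have h1 : ONE = enc NL (fun _ => 1) := by rw [ONE_eq, one_mul]
  rw [hY, h1, enc_land (fun i hi => lt_trans (hy i hi) (by norm_num)) (by
    intro i hi; norm_num)]
  have h2 : Nat.add (enc NL y) (Nat.mul 42447347 (enc NL (fun i => Nat.land (y i) 1))) =
      enc NL (fun i => 2 ^ 1 * sj (y i)) := by
    show enc NL y + 42447347 * enc NL (fun i => Nat.land (y i) 1) = _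
    rw [enc_mul, enc_add]
    apply enc_congr
    intro i hi
    rw [pow_one, sj_two]
    congr 2
    exact Nat.and_one_is_mod (y i)
  rw [h2, enc_shiftRight]

/-- lane functions of a family of lane states -/
def EX (S : ℕ → ℕ × ℕ × ℕ) : ℕ := enc NL (fun i => (S i).1)
def EY (S : ℕ → ℕ × ℕ × ℕ) : ℕ := enc NL (fun i => (S i).2.1)
def EZ (S : ℕ → ℕ × ℕ × ℕ) : ℕ := enc NL (fun i => (S i).2.2)

theorem vstep_enc {S : ℕ → ℕ × ℕ × ℕ} (hS : ∀ i < NL, ok (S i)) (W D : ℕ) :
    vstep (EX S, EY S, EZ S, W, D) =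
      (EX (fun i => sstep (S i)), EY (fun i => sstep (S i)), EZ (fun i => sstep (S i)),
        W + enc NL (fun i => 2 * (S i).2.2 + (S i).2.1),
        D + ∑ i ∈ range NL, (S i).2.2 * ((S (NL - 1 - i)).2.2 + (S (NL - 1 - i)).2.1)) := by
  have ha : ∀ i < NL, (S i).1 ≤ 21223673 := fun i hi => (hS i hi).2.1
  have hy : ∀ i < NL, (S i).2.1 < 42447347 := fun i hi => (hS i hi).2.2.2.1
  have hz : ∀ i < NL, (S i).2.2 < 42447347 := fun i hi => (hS i hi).2.2.2.2
  have hj : ∀ i < NL, sj (S i).2.1 < 42447347 := by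
    intro i hi
    have h1 := sj_two (S i).2.1
    have h2 := hy i hi
    omega
  have h2 : Nat.mul 2 (EX S) = enc NL (fun i => 2 * (S i).1) := enc_mul NL 2 _
  unfold vstep
  simp only
  refine Prod.ext ?_ (Prod.ext ?_ (Prod.ext ?_ (Prod.ext ?_ ?_)))
  · simp only
    rw [h2]
    exact nX_enc ha (fun i hi => by have := ha i hi; omega)
  · simp only
    rw [EY, hY_enc hy]
    exact nX_enc ha hj
  · simp only
    rw [EY, hY_enc hy, EX, land_mask_enc ha (fun i hi => lt_trans (hj i hi) (by norm_num)), nZ,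
      EZ, ← ONE_eq Q2]
    have e1 : Nat.add (Nat.add (enc NL (fun i => (S i).2.2)) (enc NL (fun _ => Q2)))
        (enc NL (fun i => if 21223674 ≤ 2 * (S i).1 then sj (S i).2.1 else 0)) =
        enc NL (fun i => (S i).2.2 + Q2 +
          (if 21223674 ≤ 2 * (S i).1 then sj (S i).2.1 else 0)) := by
      show enc NL _ + enc NL _ + enc NL _ = _
      rw [enc_add, enc_add]
    rw [e1, redp_enc, redp_enc]
    · rfl
    · intro i hi
      have g1 := hz i hi
      have g2 := hj i hi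
      simp only [Q2]
      norm_num
      split_ifs <;> omega
    · intro i hi
      have g1 := hz i hi
      have g2 := hj i hi
      simp only [Q2]
      norm_num
      split_ifs <;> omega
  · simp only
    show W + (2 * enc NL _ + enc NL _) = _
    rw [enc_mul, enc_add]
  · simp only
    have e1 : Nat.add (EZ S) (EY S) = enc NL (fun i => (S i).2.2 + (S i).2.1) := enc_add NL _ _
    rw [e1, EZ]
    have e2 := enc_inner (n := NL) (by rw [NL_eq]; norm_num) (f := fun i => (S i).2.2)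
      (g := fun i => (S i).2.2 + (S i).2.1) (2 ^ 26) (2 ^ 27)
      (fun i hi => by have := hz i hi; omega)
      (fun i hi => by have := hz i hi; have := hy i hi; omega) (by rw [NL_eq]; norm_num)
    have e3 : 64 * (NL - 1) = 32704 := by rw [NL_eq]
    rw [e3, show (2 : ℕ) ^ 64 = 18446744073709551616 by norm_num] at e2
    rw [e2]
    rfl

/-- meaning of the iterated vector step -/
theorem vrun_enc {S : ℕ → ℕ × ℕ × ℕ} (hS : ∀ i < NL, ok (S i)) (W D t : ℕ) :
    vstep^[t] (EX S, EY S, EZ S, W, D) =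
      (EX (fun i => sstep^[t] (S i)), EY (fun i => sstep^[t] (S i)),
        EZ (fun i => sstep^[t] (S i)),
        W + enc NL (fun i => ∑ u ∈ range t, (2 * (sstep^[u] (S i)).2.2 + (sstep^[u] (S i)).2.1)),
        D + ∑ u ∈ range t, ∑ i ∈ range NL, (sstep^[u] (S i)).2.2 *
          ((sstep^[u] (S (NL - 1 - i))).2.2 + (sstep^[u] (S (NL - 1 - i))).2.1)) := by
  induction t with
  | zero =>
    simp only [Function.iterate_zero, id, Finset.range_zero, Finset.sum_empty]
    have h0 : enc NL (fun _ => 0) = 0 := by rw [ONE_eq, zero_mul]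
    rw [h0]
    rfl
  | succ t ih =>
    rw [Function.iterate_succ_apply', ih, vstep_enc]
    · refine Prod.ext ?_ (Prod.ext ?_ (Prod.ext ?_ (Prod.ext ?_ ?_)))
      · simp only [Function.iterate_succ_apply']
      · simp only [Function.iterate_succ_apply']
      · simp only [Function.iterate_succ_apply']
      · simp only
        rw [Nat.add_assoc, enc_add]
        have e5 : enc NL (fun i => (∑ u ∈ range t, (2 * (sstep^[u] (S i)).2.2 +
            (sstep^[u] (S i)).2.1)) + (2 * (sstep^[t] (S i)).2.2 + (sstep^[t] (S i)).2.1)) =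
            enc NL (fun i => ∑ u ∈ range (t + 1), (2 * (sstep^[u] (S i)).2.2 +
            (sstep^[u] (S i)).2.1)) := by
          apply enc_congr
          intro i _
          exact (Finset.sum_range_succ _ t).symm
        rw [e5]
      · simp only
        rw [Nat.add_assoc]
        exact congrArg (fun v => D + v) (Finset.sum_range_succ (fun u => ∑ i ∈ range NL,
          (sstep^[u] (S i)).2.2 *
          ((sstep^[u] (S (NL - 1 - i))).2.2 + (sstep^[u] (S (NL - 1 - i))).2.1)) t).symm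
    · intro i hi
      have : ∀ t, ok (sstep^[t] (S i)) := by
        intro t
        induction t with
        | zero => exact hS i hi
        | succ t ih =>
          rw [Function.iterate_succ_apply']
          exact ok_sstep ih
      exact this t

end LerchPrime
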