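import Mathlib
import Pool.Agent.H90.Lerch.Step

open Finset

namespace LerchPrime

/-- the test at the end of a chunk -/
def fin (X' Y' Z' w d : ℕ) (X Y Z W D : ℕ) : Bool :=
  Nat.beq X X' && (Nat.beq Y Y' && (Nat.beq Z Z' &&
    (Nat.beq (Nat.mod (Nat.shiftRight (Nat.mul W ONE) 32704) 18446744073709551616) w &&
      Nat.beq D d)))

/-- one chunk, the check performed by the kernel -/
def chunkB (X Y Z X' Y' Z' w d : ℕ) : Bool :=
  force ONE fun O =>
  force (Nat.mul 45885190 ONE) fun C1 =>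
  force (Nat.mul 67108864 ONE) fun C2 =>
  force (Nat.mul 91770381 ONE) fun C3 =>
  force (Nat.mul 134217728 ONE) fun C4 =>
  force (Nat.mul 40742170 ONE) fun Cq =>
  run (fin X' Y' Z' w d) O C1 C2 C3 C4 Cq 1928 X Y Z 0 0

theorem run_cast {f : ℕ → ℕ → ℕ → ℕ → ℕ → Bool} {n X Y Z O : ℕ} :
    run f O (Nat.mul 45885190 O) (Nat.mul 67108864 O) (Nat.mul 91770381 O)
      (Nat.mul 134217728 O) (Nat.mul 40742170 O) n X Y Z 0 0 =
    run f O (45885190 * O) (2 ^ 26 * O) (91770381 * O) (2 ^ 27 * O) (Q2 * O) n X Y Z 0 0 := by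
  have e1 : Nat.mul 45885190 O = 45885190 * O := rfl
  have e2 : Nat.mul 67108864 O = 2 ^ 26 * O := by
    show 67108864 * O = _
    norm_num
  have e3 : Nat.mul 91770381 O = 91770381 * O := rfl
  have e4 : Nat.mul 134217728 O = 2 ^ 27 * O := by
    show 134217728 * O = _
    norm_num
  have e5 : Nat.mul 40742170 O = Q2 * O := rfl
  rw [e1, e2, e3, e4, e5]

theorem chunkB_eq {X Y Z X' Y' Z' w d : ℕ} (h : chunkB X Y Z X' Y' Z' w d = true) :
    fin X' Y' Z' w d (vstep^[1928] (X, Y, Z, 0, 0)).1 (vstep^[1928] (X, Y, Z, 0, 0)).2.1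
      (vstep^[1928] (X, Y, Z, 0, 0)).2.2.1 (vstep^[1928] (X, Y, Z, 0, 0)).2.2.2.1
      (vstep^[1928] (X, Y, Z, 0, 0)).2.2.2.2 = true := by
  rw [← run_eq (fin X' Y' Z' w d) 1928 X Y Z 0 0, ← run_cast]
  unfold chunkB at h
  rw [force_eq, force_eq, force_eq, force_eq, force_eq, force_eq] at h
  exact h

theorem ok_iter {s : ℕ × ℕ × ℕ} (h : ok s) (t : ℕ) : ok (sstep^[t] s) := by
  induction t with
  | zero => exact h
  | succ t ih =>
    rw [Function.iterate_succ_apply']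
    exact ok_sstep ih

/-- the two functions summed -/
def fW (s : ℕ × ℕ × ℕ) : ℕ := 2 * s.2.2 + s.2.1
def fD (s : ℕ × ℕ × ℕ) : ℕ := s.2.2 * (s.2.2 + s.2.1)

theorem chunk_step_aux {S : ℕ → ℕ × ℕ × ℕ} (hS : ∀ i < NL, ok (S i))
    (hsym : ∀ i < NL, S (NL - 1 - i) = S i)
    {X' Y' Z' w d : ℕ} (h : chunkB (EX S) (EY S) (EZ S) X' Y' Z' w d = true) :
    (X' = EX (fun i => sstep^[1928] (S i)) ∧ Y' = EY (fun i => sstep^[1928] (S i)) ∧
      Z' = EZ (fun i => sstep^[1928] (S i))) ∧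
    w = ∑ i ∈ range NL, ∑ u ∈ range 1928, fW (sstep^[u] (S i)) ∧
    d = ∑ u ∈ range 1928, ∑ i ∈ range NL, fD (sstep^[u] (S i)) := by
  have h1 := chunkB_eq h
  rw [vrun_enc hS 0 0 1928] at h1
  simp only [fin, Bool.and_eq_true, Nat.beq_eq] at h1
  obtain ⟨h2, h3, h4, h5, h6⟩ := h1
  refine ⟨⟨h2.symm, h3.symm, h4.symm⟩, ?_, ?_⟩
  · rw [← h5, Nat.zero_add]
    have e1 : ONE = enc NL (fun _ => 1) := by rw [ONE_eq, one_mul]
    rw [e1]
    have e2 := enc_inner (n := NL) (by rw [NL_eq]; norm_num)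
      (f := fun i => ∑ u ∈ range 1928, (2 * (sstep^[u] (S i)).2.2 + (sstep^[u] (S i)).2.1))
      (g := fun _ => 1) (1928 * (2 ^ 28)) 1
      (fun i hi => by
        calc ∑ u ∈ range 1928, (2 * (sstep^[u] (S i)).2.2 + (sstep^[u] (S i)).2.1) ≤
            ∑ u ∈ range 1928, 2 ^ 28 := by
              apply Finset.sum_le_sum
              intro u _
              obtain ⟨k1, k2, k3, k4, k5⟩ := ok_iter (hS i hi) u
              omega
          _ = 1928 * 2 ^ 28 := by simp)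
      (fun i hi => le_rfl) (by rw [NL_eq]; norm_num)
    have e3 : 64 * (NL - 1) = 32704 := by rw [NL_eq]
    rw [e3, show (2 : ℕ) ^ 64 = 18446744073709551616 by norm_num] at e2
    rw [e2]
    apply Finset.sum_congr rfl
    intro i _
    rw [mul_one]
    rfl
  · rw [← h6, Nat.zero_add]
    apply Finset.sum_congr rfl
    intro u _
    apply Finset.sum_congr rfl
    intro i hi
    rw [hsym i (mem_range.mp hi)]
    rfl

end LerchPrime
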