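import Mathlib

open Finset

namespace LerchPrime

/-- expansion of a product of `1 + p q_a` modulo `p^3` -/
theorem prod_expand {ι : Type*} (s : Finset ι) (p : ℤ) (q : ι → ℤ) :
    ∃ k : ℤ, 2 * ∏ a ∈ s, (1 + p * q a) =
      2 + 2 * p * (∑ a ∈ s, q a) + p ^ 2 * ((∑ a ∈ s, q a) ^ 2 - ∑ a ∈ s, q a ^ 2) +
        p ^ 3 * k := by
  classical
  induction s using Finset.induction_on with
  | empty => exact ⟨0, by simp⟩
  | insert a s ha ih =>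
    obtain ⟨k, hk⟩ := ih
    rw [Finset.prod_insert ha, Finset.sum_insert ha, Finset.sum_insert ha]
    refine ⟨k + p * q a * k + q a * ((∑ a ∈ s, q a) ^ 2 - ∑ a ∈ s, q a ^ 2), ?_⟩
    have : 2 * ((1 + p * q a) * ∏ x ∈ s, (1 + p * q x)) =
        (1 + p * q a) * (2 * ∏ x ∈ s, (1 + p * q x)) := by ring
    rw [this, hk]
    ring

/-- main algebraic criterion -/
theorem lerch_criterion (p : ℕ) (hp : p.Prime) (hp2 : p ≠ 2) (q : ℕ → ℤ)
    (hq : ∀ a ∈ Icc 1 (p - 1), (a : ℤ) ^ (p - 1) = 1 + p * q a)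
    (h : (p : ℤ) ∣ (∑ a ∈ Icc 1 (p - 1), q a ^ 2) + (∑ a ∈ Icc 1 (p - 1), q a) ^ 2 -
      2 * (∑ a ∈ Icc 1 (p - 1), q a)) :
    (p : ℤ) ^ 3 ∣ (∑ a ∈ Icc 1 (p - 1), (a : ℤ) ^ (p - 1)) - p - ((p - 1).factorial : ℤ) := by
  have hp1 : 2 ≤ p := hp.two_le
  have hpodd : Odd p := hp.odd_of_ne_two hp2
  set S1 := ∑ a ∈ Icc 1 (p - 1), q a with hS1
  set S2 := ∑ a ∈ Icc 1 (p - 1), q a ^ 2 with hS2
  -- Wilson
  have : Fact p.Prime := ⟨hp⟩
  have hW : (p : ℤ) ∣ ((p - 1).factorial : ℤ) + 1 := by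
    have h1 := ZMod.wilsons_lemma p
    have h2 : (((((p - 1).factorial : ℤ) + 1 : ℤ)) : ZMod p) = 0 := by
      push_cast
      rw [h1]; ring
    exact (ZMod.intCast_zmod_eq_zero_iff_dvd _ p).mp h2
  obtain ⟨w, hw⟩ := hW
  have hP : ((p - 1).factorial : ℤ) = -1 + p * w := by linarith
  have hp0 : (p : ℤ) ≠ 0 := by exact_mod_cast hp.ne_zero
  -- sum of powers
  have hsum : ∑ a ∈ Icc 1 (p - 1), (a : ℤ) ^ (p - 1) = (p - 1) + p * S1 := by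
    rw [Finset.sum_congr rfl hq, Finset.sum_add_distrib, ← Finset.mul_sum, ← hS1]
    have hc : ((p - 1 : ℕ) : ℤ) = (p : ℤ) - 1 := by
      push_cast [Nat.one_le_of_lt hp1]; ring
    simp [hc]
  -- product
  have hprod : ∏ a ∈ Icc 1 (p - 1), (1 + (p : ℤ) * q a) = (-1 + p * w) ^ (p - 1) := by
    rw [← hP, ← Finset.prod_congr rfl hq, Finset.prod_pow]
    congr 1
    rw [← Finset.prod_Ico_id_eq_factorial]
    have e : Icc 1 (p - 1) = Ico 1 (p - 1 + 1) := by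
      ext a; simp
    rw [e]
    push_cast
    rfl
  have heven : Even (p - 1) := hpodd.tsub_odd odd_one
  have hprod2 : (-1 + (p : ℤ) * w) ^ (p - 1) = ∏ _a ∈ range (p - 1), (1 + (p : ℤ) * (-w)) := by
    rw [Finset.prod_const, card_range, ← heven.neg_pow]
    congr 1
    ring
  obtain ⟨k1, hk1⟩ := prod_expand (Icc 1 (p - 1)) (p : ℤ) q
  obtain ⟨k2, hk2⟩ := prod_expand (range (p - 1)) (p : ℤ) (fun _ => -w)
  rw [hprod, hprod2, hk2] at hk1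
  simp only [Finset.sum_const, card_range, nsmul_eq_mul] at hk1
  have hc : ((p - 1 : ℕ) : ℤ) = (p : ℤ) - 1 := by
    push_cast [Nat.one_le_of_lt hp1]; ring
  rw [hc] at hk1
  rw [← hS1, ← hS2] at hk1
  -- hk1 : 2 + 2 p ((p-1)(-w)) + p^2 (((p-1)(-w))^2 - (p-1) w^2) + p^3 k2 = 2 + 2 p S1 + ...
  have h1 : 2 * (S1 - w) = (p : ℤ) * (S2 - S1 ^ 2 - 2 * w + 2 * w ^ 2) +
      (p : ℤ) ^ 2 * (k2 - k1 - 3 * w ^ 2 + p * w ^ 2) := by
    have h2 : (p : ℤ) * (2 * (S1 - w)) = (p : ℤ) * ((p : ℤ) * (S2 - S1 ^ 2 - 2 * w + 2 * w ^ 2) +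
      (p : ℤ) ^ 2 * (k2 - k1 - 3 * w ^ 2 + p * w ^ 2)) := by
      linear_combination -hk1
    exact mul_left_cancel₀ hp0 h2
  have hcop : IsCoprime (2 : ℤ) (p : ℤ) := by
    have : Nat.Coprime 2 p := (Nat.coprime_primes Nat.prime_two hp).mpr (Ne.symm hp2)
    exact_mod_cast Nat.isCoprime_iff_coprime.mpr this
  have h3 : (p : ℤ) ∣ S1 - w := by
    have : (p : ℤ) ∣ 2 * (S1 - w) := by
      rw [h1]
      exact dvd_add (Dvd.intro _ rfl) (Dvd.dvd.mul_right (dvd_pow_self _ (by norm_num)) _)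
    exact hcop.symm.dvd_of_dvd_mul_left this
  obtain ⟨v, hv⟩ := h3
  obtain ⟨g, hg⟩ := h
  have h4 : (p : ℤ) ^ 2 ∣ S1 - w := by
    have : (p : ℤ) ^ 2 ∣ 2 * (S1 - w) := by
      rw [h1]
      have hw' : w = S1 - p * v := by linarith
      have h5 : (p : ℤ) ∣ (S2 - S1 ^ 2 - 2 * w + 2 * w ^ 2) := by
        refine ⟨g + 2 * v - 4 * S1 * v + 2 * p * v ^ 2, ?_⟩
        rw [hw']
        linear_combination hg
      obtain ⟨u, hu⟩ := h5
      rw [hu]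
      refine ⟨u + (k2 - k1 - 3 * w ^ 2 + p * w ^ 2), ?_⟩
      ring
    exact (hcop.symm.pow_left).dvd_of_dvd_mul_left this
  obtain ⟨u, hu⟩ := h4
  refine ⟨u, ?_⟩
  rw [hsum, hP]
  have : (p : ℤ) - 1 + p * S1 - p - (-1 + p * w) = p * (S1 - w) := by ring
  rw [this, hu]
  ring

end LerchPrime
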