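import Mathlib
import Pool.Agent.H90.Lerch.Expand

open Finset

namespace LerchPrime

/-- Fermat quotient as a natural number -/
def fq (p a : ℕ) : ℕ := (a ^ (p - 1) - 1) / p

theorem fq_spec {p a : ℕ} (hp : p.Prime) (ha : ¬ p ∣ a) : a ^ (p - 1) = 1 + p * fq p a := by
  have hcop : Nat.Coprime a p := ((Nat.Prime.coprime_iff_not_dvd hp).mpr ha).symm
  have h1 : a ^ (p - 1) ≡ 1 [MOD p] := by
    have := Nat.ModEq.pow_totient hcop
    rwa [Nat.totient_prime hp] at this
  have h0 : a ≠ 0 := by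
    rintro rfl
    exact ha (dvd_zero _)
  have h2 : 1 ≤ a ^ (p - 1) := Nat.one_le_pow _ _ (Nat.pos_of_ne_zero h0)
  have h3 : p ∣ a ^ (p - 1) - 1 := (Nat.modEq_iff_dvd' h2).mp h1.symm
  rw [fq, Nat.mul_div_cancel' h3]
  omega

theorem not_dvd_of_lt {p a : ℕ} (h0 : 0 < a) (h1 : a < p) : ¬ p ∣ a :=
  fun h => absurd (Nat.le_of_dvd h0 h) (by omega)

/-- Fermat quotient modulo `p` -/
def Q (p a : ℕ) : ZMod p := (fq p a : ZMod p)

theorem Q_one {p : ℕ} : Q p 1 = 0 := by
  simp [Q, fq]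

theorem Q_mul {p a b : ℕ} (hp : p.Prime) (ha : ¬ p ∣ a) (hb : ¬ p ∣ b) :
    Q p (a * b) = Q p a + Q p b := by
  have hab : ¬ p ∣ a * b := by
    intro h
    rcases hp.dvd_mul.mp h with h | h
    · exact ha h
    · exact hb h
  have h1 := fq_spec hp ha
  have h2 := fq_spec hp hb
  have h3 := fq_spec hp hab
  rw [mul_pow, h1, h2] at h3
  have h4 : p * fq p (a * b) = p * (fq p a + fq p b + p * (fq p a * fq p b)) := by
    have : (1 + p * fq p a) * (1 + p * fq p b) =
      1 + p * (fq p a + fq p b + p * (fq p a * fq p b)) := by ring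
    omega
  have h5 := Nat.eq_of_mul_eq_mul_left hp.pos h4
  rw [Q, Q, Q, h5]
  push_cast
  simp

theorem Q_sub {p b : ℕ} (hp : p.Prime) (hp2 : p ≠ 2) (h0 : 0 < b) (h1 : b < p) :
    Q p (p - b) = Q p b + (b : ZMod p)⁻¹ := by
  have hpodd : Odd p := hp.odd_of_ne_two hp2
  have heven : Even (p - 1) := hpodd.tsub_odd odd_one
  have := Fact.mk hp
  have hb := not_dvd_of_lt h0 h1
  have hb' := not_dvd_of_lt (p := p) (a := p - b) (by omega) (by omega)
  have e1 := fq_spec hp hb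
  have e2 := fq_spec hp hb'
  have hp2' : 2 ≤ p := hp.two_le
  obtain ⟨k, hk⟩ := Polynomial.powAddExpansion (b : ℤ) (-(p : ℤ)) (p - 1)
  have e3 : ((p - b : ℕ) : ℤ) ^ (p - 1) = ((b : ℤ) + -(p : ℤ)) ^ (p - 1) := by
    rw [← heven.neg_pow]
    congr 1
    push_cast [h1.le]
    ring
  have e1' : (b : ℤ) ^ (p - 1) = 1 + p * (fq p b : ℤ) := by exact_mod_cast e1
  have e2' : ((p - b : ℕ) : ℤ) ^ (p - 1) = 1 + p * (fq p (p - b) : ℤ) := by exact_mod_cast e2
  rw [e3, hk, e1'] at e2'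
  have hp0 : (p : ℤ) ≠ 0 := by exact_mod_cast hp.ne_zero
  have hc : ((p - 1 : ℕ) : ℤ) = (p : ℤ) - 1 := by
    push_cast [Nat.one_le_of_lt hp2']; ring
  rw [hc, show p - 1 - 1 = p - 2 by omega] at e2'
  have e4 : (fq p (p - b) : ℤ) = fq p b - ((p : ℤ) - 1) * (b : ℤ) ^ (p - 2) + k * p := by
    have : (p : ℤ) * (fq p (p - b) : ℤ) =
        (p : ℤ) * (fq p b - ((p : ℤ) - 1) * (b : ℤ) ^ (p - 2) + k * p) := by
      linear_combination -e2'
    exact mul_left_cancel₀ hp0 this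
  have e5 : (Q p (p - b) : ZMod p) = Q p b + (b : ZMod p) ^ (p - 2) := by
    have h := congrArg (fun z : ℤ => (z : ZMod p)) e4
    push_cast at h
    rw [Q, Q, h]
    simp
  rw [e5]
  congr 1
  have hb0 : (b : ZMod p) ≠ 0 := by
    intro h
    exact hb ((ZMod.natCast_eq_zero_iff b p).mp h)
  have h3 : (b : ZMod p) * (b : ZMod p) ^ (p - 2) = 1 := by
    rw [← pow_succ', show p - 2 + 1 = p - 1 by omega]
    exact ZMod.pow_card_sub_one_eq_one hb0
  exact eq_inv_of_mul_eq_one_right h3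

/-- reflection of sums -/
theorem sum_reflect {M : Type*} [AddCommMonoid M] (h : ℕ) (F : ℕ → M) :
    ∑ a ∈ Icc 1 (2 * h), F a = ∑ a ∈ Icc 1 h, (F a + F (2 * h + 1 - a)) := by
  rw [Finset.sum_add_distrib]
  have e1 : Icc 1 (2 * h) = Icc 1 h ∪ Icc (h + 1) (2 * h) := by
    ext a; simp only [mem_Icc, mem_union]; omega
  have hd : Disjoint (Icc 1 h) (Icc (h + 1) (2 * h)) := by
    rw [Finset.disjoint_left]
    intro a ha hb
    simp only [mem_Icc] at ha hb
    omega
  rw [e1, Finset.sum_union hd]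
  congr 1
  apply Finset.sum_nbij' (fun a => 2 * h + 1 - a) (fun a => 2 * h + 1 - a)
  · intro a ha; simp only [mem_Icc] at ha ⊢; omega
  · intro a ha; simp only [mem_Icc] at ha ⊢; omega
  · intro a ha; simp only [mem_Icc] at ha; omega
  · intro a ha; simp only [mem_Icc] at ha; omega
  · intro a ha
    simp only [mem_Icc] at ha
    congr 1
    omega

theorem sum_inv_sq {p : ℕ} (hp : p.Prime) (h3 : 3 < p) :
    ∑ a ∈ Icc 1 (p - 1), ((a : ZMod p)⁻¹) ^ 2 = 0 := by
  have := Fact.mk hp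
  have h1 : ∑ x : ZMod p, x ^ 2 = 0 := by
    apply FiniteField.sum_pow_lt_card_sub_one
    rw [ZMod.card]
    omega
  have h2 : ∑ x : ZMod p, (x⁻¹) ^ 2 = ∑ x : ZMod p, x ^ 2 :=
    Equiv.sum_comp (Equiv.inv (ZMod p)) (fun x => x ^ 2)
  rw [h1] at h2
  rw [← h2]
  -- compare with sum over range
  have h4 : ∑ x : ZMod p, (x⁻¹) ^ 2 = ∑ a ∈ range p, ((a : ZMod p)⁻¹) ^ 2 := by
    symm
    apply Finset.sum_nbij (fun a : ℕ => (a : ZMod p))
    · intro a _; simp
    · intro a ha b hb hab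
      simp only [coe_range, Set.mem_Iio] at ha hb
      have := congrArg ZMod.val hab
      simp only at this
      rwa [ZMod.val_natCast_of_lt ha, ZMod.val_natCast_of_lt hb] at this
    · intro x _
      refine ⟨x.val, ?_, ?_⟩
      · simp only [coe_range, Set.mem_Iio]
        exact ZMod.val_lt x
      · simp
    · intro a _; rfl
  rw [h4]
  have h5 : range p = insert 0 (Icc 1 (p - 1)) := by
    ext a; simp only [mem_range, mem_insert, mem_Icc]; omega
  rw [h5, Finset.sum_insert (by simp)]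
  simp

/-- the criterion in terms of half sums modulo `p` -/
theorem lerch_half {p h : ℕ} (hp : p.Prime) (h3 : 3 < p) (hph : p = 2 * h + 1)
    (hcrit : 2 * (∑ a ∈ Icc 1 h, Q p a * (Q p a + (a : ZMod p)⁻¹)) +
      (∑ a ∈ Icc 1 h, (2 * Q p a + (a : ZMod p)⁻¹)) ^ 2 -
      2 * (∑ a ∈ Icc 1 h, (2 * Q p a + (a : ZMod p)⁻¹)) = 0) :
    (p : ℤ) ^ 3 ∣ (∑ a ∈ Icc 1 (p - 1), (a : ℤ) ^ (p - 1)) - p - ((p - 1).factorial : ℤ) := by
  have := Fact.mk hp
  have hp2 : p ≠ 2 := by omega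
  apply lerch_criterion p hp hp2 (fun a => (fq p a : ℤ))
  · intro a ha
    simp only [mem_Icc] at ha
    exact_mod_cast fq_spec hp (not_dvd_of_lt (by omega) (by omega))
  · rw [← ZMod.intCast_zmod_eq_zero_iff_dvd]
    push_cast
    have e1 : ∑ a ∈ Icc 1 (p - 1), (fq p a : ZMod p) =
        ∑ a ∈ Icc 1 h, (2 * Q p a + (a : ZMod p)⁻¹) := by
      rw [show p - 1 = 2 * h by omega, sum_reflect]
      apply Finset.sum_congr rfl
      intro a ha
      simp only [mem_Icc] at ha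
      rw [← hph]
      have := Q_sub hp hp2 (b := a) (by omega) (by omega)
      simp only [Q] at this ⊢
      rw [this]
      ring
    have e2 : ∑ a ∈ Icc 1 (p - 1), (fq p a : ZMod p) ^ 2 =
        2 * (∑ a ∈ Icc 1 h, Q p a * (Q p a + (a : ZMod p)⁻¹)) +
          ∑ a ∈ Icc 1 h, ((a : ZMod p)⁻¹) ^ 2 := by
      rw [show p - 1 = 2 * h by omega, sum_reflect, Finset.mul_sum, ← Finset.sum_add_distrib]
      apply Finset.sum_congr rfl
      intro a ha
      simp only [mem_Icc] at ha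
      rw [← hph]
      have := Q_sub hp hp2 (b := a) (by omega) (by omega)
      simp only [Q] at this ⊢
      rw [this]
      ring
    have e3 : ∑ a ∈ Icc 1 h, ((a : ZMod p)⁻¹) ^ 2 = 0 := by
      have h5 := sum_inv_sq hp h3
      rw [show p - 1 = 2 * h by omega, sum_reflect] at h5
      have h6 : ∑ a ∈ Icc 1 h, (((a : ZMod p)⁻¹) ^ 2 + ((((2 * h + 1 - a : ℕ) : ℕ) : ZMod p)⁻¹) ^ 2) =
          2 * ∑ a ∈ Icc 1 h, ((a : ZMod p)⁻¹) ^ 2 := by
        rw [Finset.mul_sum]
        apply Finset.sum_congr rfl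
        intro a ha
        simp only [mem_Icc] at ha
        rw [← hph, Nat.cast_sub (by omega)]
        simp
        ring
      rw [h6] at h5
      have h7 : (2 : ZMod p) ≠ 0 := by
        intro h
        have h8 : ((2 : ℕ) : ZMod p) = 0 := by exact_mod_cast h
        rw [ZMod.natCast_eq_zero_iff] at h8
        have := Nat.le_of_dvd (by norm_num) h8
        omega
      rcases mul_eq_zero.mp h5 with h9 | h9
      · exact absurd h9 h7
      · exact h9
    rw [e1, e2, e3, add_zero]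
    exact hcrit

end LerchPrime
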