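import Mathlib
import Pool.Agent.H90.Lerch.Quot
import Pool.Agent.H90.Lerch.Step

open Finset

namespace LerchPrime

/-- the prime -/
abbrev PP : ℕ := 42447347

theorem prime_PP : Nat.Prime PP := by norm_num
theorem prime_half : Nat.Prime 21223673 := by norm_num

instance : Fact (Nat.Prime PP) := ⟨prime_PP⟩

theorem two_pow_zmod : (2 : ZMod 1801777267338409) ^ 42447346 = 1729397027522991 := by
  reduce_mod_char

theorem Q_two_aux (p n f : ℕ) (hp : p = 42447347) (h1 : 2 ^ n = 1 + p * f)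
    (h2 : (2 : ZMod 1801777267338409) ^ n = 1729397027522991) :
    f ≡ 40742170 [MOD p] := by
  subst hp
  have h3 : ((2 ^ n : ℕ) : ZMod 1801777267338409) =
      ((1 + 42447347 * 40742170 : ℕ) : ZMod 1801777267338409) := by
    push_cast
    rw [h2]
  rw [h1, ZMod.natCast_eq_natCast_iff] at h3
  have h4 : 42447347 * f ≡ 42447347 * 40742170 [MOD 42447347 * 42447347] :=
    Nat.ModEq.add_left_cancel' 1 h3
  exact Nat.ModEq.mul_left_cancel' (by norm_num) h4

theorem Q_two : Q PP 2 = (40742170 : ZMod PP) := by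
  have h1 : 2 ^ (PP - 1) = 1 + PP * fq PP 2 := fq_spec prime_PP (by norm_num)
  have h2 : (2 : ZMod 1801777267338409) ^ (PP - 1) = 1729397027522991 := by
    have h3 : PP - 1 = 42447346 := by norm_num
    rw [h3]
    exact two_pow_zmod
  have h5 := Q_two_aux PP (PP - 1) (fq PP 2) rfl h1 h2
  have h6 := (ZMod.natCast_eq_natCast_iff _ _ _).mpr h5
  rw [Q, h6]
  norm_num

theorem PP_eq : PP = 42447347 := rfl

/-- invariant of the orbit -/
def Inv (s : ℕ × ℕ × ℕ) : Prop :=
  ok s ∧ (s.1 : ZMod PP) * (s.2.1 : ZMod PP) = 1 ∧ (s.2.2 : ZMod PP) = Q PP s.1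

theorem cast_sred (r : ℕ) : ((sred r : ℕ) : ZMod PP) = (r : ZMod PP) := by
  unfold sred
  split_ifs with h
  · rw [Nat.cast_sub h]
    have : ((42447347 : ℕ) : ZMod PP) = 0 := ZMod.natCast_self PP
    rw [this, sub_zero]
  · rfl

theorem Inv_step {s : ℕ × ℕ × ℕ} (h : Inv s) : Inv (sstep s) := by
  obtain ⟨hok, h1, h2⟩ := h
  refine ⟨ok_sstep hok, ?_⟩
  obtain ⟨k1, k2, k3, k4, k5⟩ := hok
  have hp0 : ((42447347 : ℕ) : ZMod PP) = 0 := ZMod.natCast_self PP
  have hj : 2 * ((sj s.2.1 : ℕ) : ZMod PP) = (s.2.1 : ZMod PP) := by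
    have := congrArg (fun n : ℕ => (n : ZMod PP)) (sj_two s.2.1)
    push_cast at this
    rw [this]
    have e : (42447347 : ZMod PP) = 0 := by exact_mod_cast hp0
    rw [e]; simp
  have hinv : ((2 * s.1 : ℕ) : ZMod PP) * ((sj s.2.1 : ℕ) : ZMod PP) = 1 := by
    push_cast
    rw [mul_comm (2 : ZMod PP), mul_assoc, hj, h1]
  have hjinv : ((sj s.2.1 : ℕ) : ZMod PP) = ((2 * s.1 : ℕ) : ZMod PP)⁻¹ :=
    eq_inv_of_mul_eq_one_right hinv
  have hQ2a : Q PP (2 * s.1) = Q PP 2 + Q PP s.1 :=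
    Q_mul prime_PP (by norm_num) (not_dvd_of_lt (by omega) (by rw [PP_eq]; omega))
  have hjlt : sj s.2.1 < 42447347 := by have := sj_two s.2.1; omega
  simp only [sstep, sX, sY, sZ]
  by_cases hc : 21223674 ≤ 2 * s.1
  · rw [if_pos hc, if_pos hc, if_pos hc]
    constructor
    · rw [Nat.cast_sub (by omega), Nat.cast_sub hjlt.le, hp0]
      have : (0 - ((2 * s.1 : ℕ) : ZMod PP)) * (0 - ((sj s.2.1 : ℕ) : ZMod PP)) =
        ((2 * s.1 : ℕ) : ZMod PP) * ((sj s.2.1 : ℕ) : ZMod PP) := by ring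
      rw [this, hinv]
    · have h3 := Q_sub prime_PP (b := 2 * s.1) (by norm_num) (by omega) (by rw [PP_eq]; omega)
      have h4 : (42447347 - 2 * s.1 : ℕ) = PP - 2 * s.1 := rfl
      rw [cast_sred, cast_sred, h4, h3, hQ2a, ← hjinv, Q_two, ← h2]
      push_cast
      ring
  · rw [if_neg hc, if_neg hc, if_neg hc]
    constructor
    · exact hinv
    · rw [cast_sred, cast_sred, hQ2a, Q_two, ← h2]
      push_cast
      ring

/-- the orbit -/
def walk (t : ℕ) : ℕ × ℕ × ℕ := sstep^[t] (1, 1, 0)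

theorem walk_succ (t : ℕ) : walk (t + 1) = sstep (walk t) := Function.iterate_succ_apply' _ _ _

theorem Inv_walk (t : ℕ) : Inv (walk t) := by
  induction t with
  | zero =>
    refine ⟨?_, ?_, ?_⟩
    · simp [walk, ok]
    · simp [walk]
    · simp [walk, Q_one]
  | succ t ih => rw [walk_succ]; exact Inv_step ih

theorem walk_sq (t : ℕ) : ((walk t).1 : ZMod PP) ^ 2 = 4 ^ t := by
  induction t with
  | zero => simp [walk]
  | succ t ih =>
    have h4 : (4 : ZMod PP) ^ (t + 1) = 4 ^ t * 4 := pow_succ _ _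
    rw [walk_succ, h4, ← ih]
    obtain ⟨⟨k1, k2, -⟩, -⟩ := Inv_walk t
    simp only [sstep, sX]
    split_ifs with hc
    · rw [Nat.cast_sub (by omega)]
      have hp0 : ((42447347 : ℕ) : ZMod PP) = 0 := ZMod.natCast_self PP
      rw [hp0]
      push_cast
      ring
    · push_cast
      ring

theorem orderOf_four : orderOf (4 : ZMod PP) = 21223673 := by
  have h2 : (2 : ZMod PP) ≠ 0 := by
    intro h
    have h3 : ((2 : ℕ) : ZMod PP) = 0 := by exact_mod_cast h
    rw [ZMod.natCast_eq_zero_iff] at h3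
    have := Nat.le_of_dvd (by norm_num) h3
    norm_num at this
  have h1 : (4 : ZMod PP) ^ 21223673 = 1 := by
    have : (4 : ZMod PP) = 2 ^ 2 := by norm_num
    rw [this, ← pow_mul]
    exact ZMod.pow_card_sub_one_eq_one h2
  have h3 := orderOf_dvd_of_pow_eq_one h1
  rcases (Nat.dvd_prime prime_half).mp h3 with h4 | h4
  · exfalso
    rw [orderOf_eq_one_iff] at h4
    have h5 : ((3 : ℕ) : ZMod PP) = 0 := by
      have : (3 : ZMod PP) = 4 - 1 := by norm_num
      rw [h4] at this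
      push_cast
      rw [this]; ring
    rw [ZMod.natCast_eq_zero_iff] at h5
    have := Nat.le_of_dvd (by norm_num) h5
    norm_num at this
  · exact h4

theorem pow_four_inj {s t : ℕ} (hst : s ≤ t) (ht : t < 21223673)
    (h : (4 : ZMod PP) ^ s = 4 ^ t) : s = t := by
  have h4 : (4 : ZMod PP) ≠ 0 := by
    intro h
    have h5 := orderOf_four
    rw [h] at h5
    have h6 := pow_orderOf_eq_one (0 : ZMod PP)
    rw [h5, zero_pow (by norm_num)] at h6
    exact zero_ne_one h6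
  obtain ⟨k, rfl⟩ := Nat.exists_eq_add_of_le hst
  rw [pow_add] at h
  have h1 : (4 : ZMod PP) ^ k = 1 := by
    have h2 : (4 : ZMod PP) ^ s * 1 = 4 ^ s * 4 ^ k := by rw [mul_one]; exact h
    exact (mul_left_cancel₀ (pow_ne_zero _ h4) h2).symm
  have h3 := orderOf_dvd_of_pow_eq_one h1
  rw [orderOf_four] at h3
  rcases Nat.eq_zero_or_pos k with rfl | hk
  · rfl
  · have := Nat.le_of_dvd hk h3
    omega

theorem walk_injOn : Set.InjOn (fun t => (walk t).1) (range 21223673 : Finset ℕ) := by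
  intro s hs t ht hst
  simp only [coe_range, Set.mem_Iio] at hs ht
  simp only at hst
  have h1 : (4 : ZMod PP) ^ s = 4 ^ t := by rw [← walk_sq, ← walk_sq, hst]
  rcases le_total s t with h | h
  · exact pow_four_inj h ht h1
  · exact (pow_four_inj h hs h1.symm).symm

theorem sum_walk {M : Type*} [AddCommMonoid M] (G : ℕ → M) :
    ∑ t ∈ range 21223673, G (walk t).1 = ∑ a ∈ Icc 1 21223673, G a := by
  have h1 : (range 21223673).image (fun t => (walk t).1) = Icc 1 21223673 := by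
    apply Finset.eq_of_subset_of_card_le
    · intro a ha
      simp only [mem_image] at ha
      obtain ⟨t, -, rfl⟩ := ha
      obtain ⟨⟨k1, k2, -⟩, -⟩ := Inv_walk t
      simp only [mem_Icc]
      exact ⟨k1, k2⟩
    · rw [Finset.card_image_of_injOn walk_injOn]
      simp
  rw [← h1, Finset.sum_image walk_injOn]

/-- everything follows from the two orbit sums -/
theorem lerch_of_orbit (W D : ℕ)
    (hW : ∑ t ∈ range 21223673, (2 * (walk t).2.2 + (walk t).2.1) ≡ W [MOD PP])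
    (hD : ∑ t ∈ range 21223673, (walk t).2.2 * ((walk t).2.2 + (walk t).2.1) ≡ D [MOD PP])
    (hfin : 2 * D + W * W ≡ 2 * W [MOD PP]) :
    (PP : ℤ) ^ 3 ∣ (∑ a ∈ Icc 1 (PP - 1), (a : ℤ) ^ (PP - 1)) - PP - ((PP - 1).factorial : ℤ) := by
  apply lerch_half (h := 21223673) prime_PP (by norm_num) (by norm_num)
  have e1 : ∑ a ∈ Icc 1 21223673, (2 * Q PP a + (a : ZMod PP)⁻¹) = (W : ZMod PP) := by
    rw [← sum_walk (fun a => 2 * Q PP a + (a : ZMod PP)⁻¹)]
    rw [← (ZMod.natCast_eq_natCast_iff _ _ _).mpr hW]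
    push_cast
    apply Finset.sum_congr rfl
    intro t _
    obtain ⟨-, k1, k2⟩ := Inv_walk t
    rw [k2, ← eq_inv_of_mul_eq_one_right k1]
  have e2 : ∑ a ∈ Icc 1 21223673, Q PP a * (Q PP a + (a : ZMod PP)⁻¹) = (D : ZMod PP) := by
    rw [← sum_walk (fun a => Q PP a * (Q PP a + (a : ZMod PP)⁻¹))]
    rw [← (ZMod.natCast_eq_natCast_iff _ _ _).mpr hD]
    push_cast
    apply Finset.sum_congr rfl
    intro t _
    obtain ⟨-, k1, k2⟩ := Inv_walk t
    rw [k2, ← eq_inv_of_mul_eq_one_right k1]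
  rw [e1, e2]
  have h3 := (ZMod.natCast_eq_natCast_iff _ _ _).mpr hfin
  push_cast at h3
  linear_combination h3

end LerchPrime
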