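import Mathlib
import Pool.Agent.H90.Lerch.Chunk
import Pool.Agent.H90.Lerch.Orbit

open Finset

namespace LerchPrime

/-- lane extraction -/
def lane (X i : ℕ) : ℕ := Nat.mod (Nat.shiftRight X (Nat.mul 64 i)) 18446744073709551616

theorem lane_eq (X i : ℕ) : lane X i = X / 2 ^ (64 * i) % 2 ^ 64 := by
  show (X >>> (64 * i)) % 18446744073709551616 = _
  rw [Nat.shiftRight_eq_div_pow]
  norm_num

theorem enc_lane_self {n X : ℕ} (h : X < 2 ^ (64 * n)) : X = enc n (lane X) := by
  induction n generalizing X with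
  | zero =>
    have : X = 0 := by simpa using h
    subst this
    simp [enc]
  | succ n ih =>
    have h1 : X % 2 ^ (64 * n) < 2 ^ (64 * n) := Nat.mod_lt _ (by positivity)
    have h2 := ih h1
    rw [enc_succ]
    have h3 : enc n (lane X) = enc n (lane (X % 2 ^ (64 * n))) := by
      apply enc_congr
      intro i hi
      rw [lane_eq, lane_eq]
      have e1 : 2 ^ (64 * n) = 2 ^ (64 * i) * 2 ^ 64 * 2 ^ (64 * (n - 1 - i)) := by
        rw [← pow_add, ← pow_add]; congr 1; omega
      rw [e1, mul_assoc, Nat.mod_mul_right_div_self, Nat.mod_mul_right_mod]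
    rw [h3, ← h2, lane_eq, Nat.mod_eq_of_lt (a := X / 2 ^ (64 * n))]
    · have := Nat.div_add_mod X (2 ^ (64 * n))
      rw [Nat.mul_comm] at this
      omega
    · rw [Nat.div_lt_iff_lt_mul (by positivity), ← pow_add]
      calc X < 2 ^ (64 * (n + 1)) := h
        _ = 2 ^ (64 + 64 * n) := by congr 1; ring

/-- state family read off three vectors -/
def stt (X Y Z : ℕ) (i : ℕ) : ℕ × ℕ × ℕ := (lane X i, lane Y i, lane Z i)

/-- boolean admissibility test of one lane and symmetry -/
def okB (X Y Z i : ℕ) : Bool :=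
  Nat.ble 1 (lane X i) && (Nat.ble (lane X i) 21223673 && (Nat.ble 1 (lane Y i) &&
    (Nat.blt (lane Y i) 42447347 && (Nat.blt (lane Z i) 42447347 &&
      (Nat.beq (lane X (Nat.sub 511 i)) (lane X i) &&
        (Nat.beq (lane Y (Nat.sub 511 i)) (lane Y i) &&
          Nat.beq (lane Z (Nat.sub 511 i)) (lane Z i)))))))

/-- bounded universal quantifier -/
def allB (f : ℕ → Bool) (n : ℕ) : Bool := Nat.rec true (fun i ih => f i && ih) n

theorem allB_spec {f : ℕ → Bool} {n : ℕ} (h : allB f n = true) : ∀ i < n, f i = true := by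
  induction n with
  | zero => intro i hi; omega
  | succ n ih =>
    have h1 : (f n && allB f n) = true := h
    rw [Bool.and_eq_true] at h1
    intro i hi
    rcases Nat.lt_succ_iff_lt_or_eq.mp hi with h2 | rfl
    · exact ih h1.2 i h2
    · exact h1.1

theorem okB_spec {X Y Z i : ℕ} (h : okB X Y Z i = true) :
    ok (stt X Y Z i) ∧ stt X Y Z (511 - i) = stt X Y Z i := by
  simp only [okB, Bool.and_eq_true, Nat.beq_eq, Nat.ble_eq, Nat.blt_eq] at h
  obtain ⟨h1, h2, h3, h4, h5, h6, h7, h8⟩ := h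
  refine ⟨⟨h1, h2, h3, h4, h5⟩, ?_⟩
  exact Prod.ext h6 (Prod.ext h7 h8)

end LerchPrime
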