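import Mathlib
import Pool.Agent.H90.Lerch.Lane
import Pool.Agent.H90.Lerch.Data

open Finset

namespace LerchPrime

/-- initial lanes -/
def S0 (i : ℕ) : ℕ × ℕ × ℕ := stt X0 Y0 Z0 i

/-- lanes after `k` chunks -/
def T (k i : ℕ) : ℕ × ℕ × ℕ := sstep^[1928 * k] (S0 i)

theorem okB_all : allB (okB X0 Y0 Z0) 512 = true := by decide +kernel

theorem S0_ok : ∀ i < NL, ok (S0 i) := fun i hi => (okB_spec (allB_spec okB_all i hi)).1

theorem S0_sym : ∀ i < NL, S0 (NL - 1 - i) = S0 i := fun i hi =>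
  (okB_spec (allB_spec okB_all i hi)).2

theorem T_ok (k : ℕ) : ∀ i < NL, ok (T k i) := fun i hi => ok_iter (S0_ok i hi) _

theorem T_sym (k : ℕ) : ∀ i < NL, T k (NL - 1 - i) = T k i := fun i hi => by
  rw [T, S0_sym i hi, T]

theorem T_succ (k i : ℕ) : sstep^[1928] (T k i) = T (k + 1) i := by
  rw [T, T, ← Function.iterate_add_apply]
  congr 1
  ring_nf

/-- the packed states agree with the lanes after `k` chunks -/
def Agree (k X Y Z : ℕ) : Prop := X = EX (T k) ∧ Y = EY (T k) ∧ Z = EZ (T k)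

def SW (k : ℕ) : ℕ := ∑ i ∈ range NL, ∑ u ∈ range 1928, fW (sstep^[u] (T k i))
def SD (k : ℕ) : ℕ := ∑ u ∈ range 1928, ∑ i ∈ range NL, fD (sstep^[u] (T k i))

theorem agree_step {k X Y Z X' Y' Z' w d : ℕ} (hA : Agree k X Y Z)
    (h : chunkB X Y Z X' Y' Z' w d = true) :
    Agree (k + 1) X' Y' Z' ∧ SW k = w ∧ SD k = d := by
  unfold Agree at hA
  have hX := hA.1
  have hY := hA.2.1
  have hZ := hA.2.2
  rw [hX, hY, hZ] at h
  obtain ⟨⟨h1, h2, h3⟩, h4, h5⟩ := chunk_step_aux (T_ok k) (T_sym k) h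
  have e : (fun i => sstep^[1928] (T k i)) = T (k + 1) := by
    funext i; exact T_succ k i
  rw [e] at h1 h2 h3
  exact ⟨⟨h1, h2, h3⟩, h4.symm, h5.symm⟩

theorem ltB : (Nat.blt X0 (2 ^ (64 * 512)) && (Nat.blt Y0 (2 ^ (64 * 512)) &&
    Nat.blt Z0 (2 ^ (64 * 512)))) = true := by decide +kernel

theorem agree_zero : Agree 0 X0 Y0 Z0 := by
  have h := ltB
  simp only [Bool.and_eq_true, Nat.blt_eq] at h
  obtain ⟨h1, h2, h3⟩ := h
  refine ⟨?_, ?_, ?_⟩
  · have := enc_lane_self (n := NL) h1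
    exact this
  · have := enc_lane_self (n := NL) h2
    exact this
  · have := enc_lane_self (n := NL) h3
    exact this

end LerchPrime
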