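import Mathlib
import Pool.Agent.H90.Lerch.Chunk
import Pool.Agent.H90.Lerch.Data

namespace LerchPrime

theorem c0 : chunkB X0 Y0 Z0 X1 Y1 Z1 62844042140948 1036928197856967768700 = true := by
  decide +kernel

theorem c1 : chunkB X1 Y1 Z1 X2 Y2 Z2 62818312017840 1036821075383728863394 = true := by
  decide +kernel

end LerchPrime
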