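import Mathlib
import Pool.Agent.H90.Lerch.Chunk
import Pool.Agent.H90.Lerch.Data

namespace LerchPrime

theorem c2 : chunkB X2 Y2 Z2 X3 Y3 Z3 62766642466332 1034934179958048801706 = true := by
  decide +kernel

theorem c3 : chunkB X3 Y3 Z3 X4 Y4 Z4 62908506636394 1039318926787901152552 = true := by
  decide +kernel

end LerchPrime
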