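import Mathlib
import Pool.Agent.H90.Lerch.Chunk
import Pool.Agent.H90.Lerch.Data
import Pool.Agent.H90.Lerch.Chunk2

namespace LerchPrime

theorem c10 : chunkB X10 Y10 Z10 X11 Y11 Z11 62822077999676 1036812542576786295416 = true := by
  decide +kernel

theorem c11 : chunkB X11 Y11 Z11 X12 Y12 Z12 62896979293382 1039038074835044577902 = true := by
  decide +kernel

end LerchPrime
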