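import Mathlib
import Pool.Agent.H90.Lerch.Chunk
import Pool.Agent.H90.Lerch.Data
import Pool.Agent.H90.Lerch.Chunk6

namespace LerchPrime

theorem c18 : chunkB X18 Y18 Z18 X19 Y19 Z19 62868739049448 1038015456662844535302 = true := by
  decide +kernel

theorem c19 : chunkB X19 Y19 Z19 X20 Y20 Z20 62786728586548 1035212439574555139850 = true := by
  decide +kernel

end LerchPrime
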