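import Mathlib
import Pool.Agent.H90.Lerch.Chunk
import Pool.Agent.H90.Lerch.Data

namespace LerchPrime

theorem c4 : chunkB X4 Y4 Z4 X5 Y5 Z5 62713100996006 1032300812671502427966 = true := by
  decide +kernel

theorem c5 : chunkB X5 Y5 Z5 X6 Y6 Z6 62756542578590 1034106579618529687460 = true := by
  decide +kernel

end LerchPrime
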