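import Mathlib
import Pool.Agent.H90.Lerch.Chunk
import Pool.Agent.H90.Lerch.Data
import Pool.Agent.H90.Lerch.Chunk3

namespace LerchPrime

theorem c12 : chunkB X12 Y12 Z12 X13 Y13 Z13 62840591997446 1037460904331347383672 = true := by
  decide +kernel

theorem c13 : chunkB X13 Y13 Z13 X14 Y14 Z14 62839032880280 1037628130026014103928 = true := by
  decide +kernel

end LerchPrime
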