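import Mathlib
import Pool.Agent.H90.Lerch.Chunk
import Pool.Agent.H90.Lerch.Data
import Pool.Agent.H90.Lerch.Chunk7

namespace LerchPrime

theorem c20 : chunkB X20 Y20 Z20 X21 Y21 Z21 62843085041560 1036958752946789946576 = true := by
  decide +kernel

theorem c21 : chunkB X21 Y21 Z21 X22 Y22 Z22 62853787401178 1037169650422005966748 = true := by
  decide +kernel

end LerchPrime
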