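import Mathlib
import Pool.Agent.H90.Lerch.Chunk
import Pool.Agent.H90.Lerch.Data

namespace LerchPrime

theorem c6 : chunkB X6 Y6 Z6 X7 Y7 Z7 62800311881050 1035850098794513629498 = true := by
  decide +kernel

theorem c7 : chunkB X7 Y7 Z7 X8 Y8 Z8 62922815804522 1039615669706648696322 = true := by
  decide +kernel

end LerchPrime
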