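import Mathlib
import Pool.Agent.H90.Lerch.Chunk
import Pool.Agent.H90.Lerch.Data
import Pool.Agent.H90.Lerch.Chunk4

namespace LerchPrime

theorem c14 : chunkB X14 Y14 Z14 X15 Y15 Z15 62911195836030 1039086287435936192182 = true := by
  decide +kernel

theorem c15 : chunkB X15 Y15 Z15 X16 Y16 Z16 62919507745012 1039626779543417853410 = true := by
  decide +kernel

end LerchPrime
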