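import Mathlib
import Pool.Agent.H90.Lerch.Chunk
import Pool.Agent.H90.Lerch.Data
import Pool.Agent.H90.Lerch.Chunk8

namespace LerchPrime

theorem c22 : chunkB X22 Y22 Z22 X23 Y23 Z23 62880912525552 1037998300478565626350 = true := by
  decide +kernel

theorem c23 : chunkB X23 Y23 Z23 X24 Y24 Z24 62876453255168 1038407775190765953140 = true := by
  decide +kernel

end LerchPrime
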