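import Mathlib
import Pool.Agent.H90.Lerch.Chunk
import Pool.Agent.H90.Lerch.Data
import Pool.Agent.H90.Lerch.Chunk10

namespace LerchPrime

theorem c26 : chunkB X26 Y26 Z26 X27 Y27 Z27 62809401880258 1035815706104932952616 = true := by
  decide +kernel

theorem c27 : chunkB X27 Y27 Z27 X28 Y28 Z28 62757761327844 1034147533516794067030 = true := by
  decide +kernel

end LerchPrime
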