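import Mathlib
import Pool.Agent.H90.Lerch.Chunk
import Pool.Agent.H90.Lerch.Data
import Pool.Agent.H90.Lerch.Chunk11

namespace LerchPrime

theorem c28 : chunkB X28 Y28 Z28 X29 Y29 Z29 62778471557002 1034925237839260088478 = true := by
  decide +kernel

theorem c29 : chunkB X29 Y29 Z29 X30 Y30 Z30 62856581262048 1037453117482460298098 = true := by
  decide +kernel

end LerchPrime
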