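import Mathlib
import Pool.Agent.H90.Lerch.Chunk
import Pool.Agent.H90.Lerch.Data
import Pool.Agent.H90.Lerch.Chunk12

namespace LerchPrime

theorem c30 : chunkB X30 Y30 Z30 X31 Y31 Z31 62814068928508 1036333671391504201400 = true := by
  decide +kernel

theorem c31 : chunkB X31 Y31 Z31 X32 Y32 Z32 62818278358166 1036010333616403039026 = true := by
  decide +kernel

end LerchPrime
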