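import Mathlib
import Pool.Agent.H90.Lerch.Chunk
import Pool.Agent.H90.Lerch.Data
import Pool.Agent.H90.Lerch.Chunk1

namespace LerchPrime

theorem c8 : chunkB X8 Y8 Z8 X9 Y9 Z9 62836112575970 1036851080158729565524 = true := by
  decide +kernel

theorem c9 : chunkB X9 Y9 Z9 X10 Y10 Z10 62815811234762 1036289755264298380930 = true := by
  decide +kernel

end LerchPrime
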