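import Mathlib
import Pool.Agent.H90.Lerch.Chunk
import Pool.Agent.H90.Lerch.Data
import Pool.Agent.H90.Lerch.Chunk5

namespace LerchPrime

theorem c16 : chunkB X16 Y16 Z16 X17 Y17 Z17 62922623001588 1039767479132905754388 = true := by
  decide +kernel

theorem c17 : chunkB X17 Y17 Z17 X18 Y18 Z18 62872113199432 1038501575717277940896 = true := by
  decide +kernel

end LerchPrime
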