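import Mathlib
import Pool.Agent.H90.Lerch.Chunk
import Pool.Agent.H90.Lerch.Data
import Pool.Agent.H90.Lerch.Chunk9

namespace LerchPrime

theorem c24 : chunkB X24 Y24 Z24 X25 Y25 Z25 62832973904356 1036833749670649644574 = true := by
  decide +kernel

theorem c25 : chunkB X25 Y25 Z25 X26 Y26 Z26 62792436464112 1035209919763587513516 = true := by
  decide +kernel

end LerchPrime
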