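import Mathlib
import Pool.Agent.H90.Lerch.Chunk
import Pool.Agent.H90.Lerch.Data
import Pool.Agent.H90.Lerch.Chunk13

namespace LerchPrime

theorem c32 : chunkB X32 Y32 Z32 X33 Y33 Z33 62890101553512 1039235920950488624724 = true := by
  decide +kernel

theorem c33 : chunkB X33 Y33 Z33 X34 Y34 Z34 62931436329652 1040053828430394196626 = true := by
  decide +kernel

end LerchPrime
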