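import Mathlib
import Pool.Agent.H90.Lerch.Chunk
import Pool.Agent.H90.Lerch.Data
import Pool.Agent.H90.Lerch.Chunk14

namespace LerchPrime

theorem c34 : chunkB X34 Y34 Z34 X35 Y35 Z35 62876724889356 1037925175348939019240 = true := by
  decide +kernel

theorem c35 : chunkB X35 Y35 Z35 X36 Y36 Z36 62780455320416 1034998192727882079910 = true := by
  decide +kernel

end LerchPrime
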