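import Mathlib
import Pool.Agent.H90.Lerch.Chunk
import Pool.Agent.H90.Lerch.Data
import Pool.Agent.H90.Lerch.Chunk15

namespace LerchPrime

theorem c36 : chunkB X36 Y36 Z36 X37 Y37 Z37 62821335081334 1036600205996999412204 = true := by
  decide +kernel

theorem c37 : chunkB X37 Y37 Z37 X38 Y38 Z38 62996250333678 1041646736238822108486 = true := by
  decide +kernel

end LerchPrime
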