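import Mathlib
import Pool.Agent.H90.Lerch.Chunk
import Pool.Agent.H90.Lerch.Data
import Pool.Agent.H90.Lerch.Chunk16

namespace LerchPrime

theorem c38 : chunkB X38 Y38 Z38 X39 Y39 Z39 62893271983812 1038582503608896281552 = true := by
  decide +kernel

theorem c39 : chunkB X39 Y39 Z39 X40 Y40 Z40 62849076796248 1037514503225367452564 = true := by
  decide +kernel

end LerchPrime
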