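import Mathlib
import Pool.Agent.H90.Lerch.Chunk
import Pool.Agent.H90.Lerch.Data
import Pool.Agent.H90.Lerch.Chunk17

namespace LerchPrime

theorem c40 : chunkB X40 Y40 Z40 X41 Y41 Z41 62894359199576 1038163841752340806096 = true := by
  decide +kernel

theorem c41 : chunkB X41 Y41 Z41 X42 Y42 Z42 62916793640640 1039874685940918994536 = true := by
  decide +kernel

end LerchPrime
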