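import Mathlib
import Pool.Agent.H90.Lerch.Chunk
import Pool.Agent.H90.Lerch.Data
import Pool.Agent.H90.Lerch.Chunk18

namespace LerchPrime

theorem c42 : chunkB X42 Y42 Z42 X43 Y43 Z43 62918949303990 1039773620115054440850 = true := by
  decide +kernel

end LerchPrime
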