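import Mathlib
import Pool.Agent.H90.Lerch.Chain0
import Pool.Agent.H90.Lerch.Chunk1
import Pool.Agent.H90.Lerch.Chunk2
import Pool.Agent.H90.Lerch.Chunk3
import Pool.Agent.H90.Lerch.Chunk4
import Pool.Agent.H90.Lerch.Chunk5
import Pool.Agent.H90.Lerch.Chunk6
import Pool.Agent.H90.Lerch.Chunk7
import Pool.Agent.H90.Lerch.Chunk8
import Pool.Agent.H90.Lerch.Chunk9
import Pool.Agent.H90.Lerch.Chunk10
import Pool.Agent.H90.Lerch.Chunk11
import Pool.Agent.H90.Lerch.Chunk12
import Pool.Agent.H90.Lerch.Chunk13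
import Pool.Agent.H90.Lerch.Chunk14
import Pool.Agent.H90.Lerch.Chunk15
import Pool.Agent.H90.Lerch.Chunk16
import Pool.Agent.H90.Lerch.Chunk17
import Pool.Agent.H90.Lerch.Chunk18
import Pool.Agent.H90.Lerch.Chunk19
import Pool.Agent.H90.Lerch.Chunk20
import Pool.Agent.H90.Lerch.Chunk21
import Pool.Agent.H90.Lerch.Chunk22

open Finset

namespace LerchPrime

theorem chain : Agree 43 X43 Y43 Z43 ∧ ∑ k ∈ range 43, SW k = 2702544754259222 ∧
    ∑ k ∈ range 43, SD k = 44605799008796821465338 := by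
  have g0 := agree_zero
  have g1 := agree_step g0 c0
  have g2 := agree_step g1.1 c1
  have g3 := agree_step g2.1 c2
  have g4 := agree_step g3.1 c3
  have g5 := agree_step g4.1 c4
  have g6 := agree_step g5.1 c5
  have g7 := agree_step g6.1 c6
  have g8 := agree_step g7.1 c7
  have g9 := agree_step g8.1 c8
  have g10 := agree_step g9.1 c9
  have g11 := agree_step g10.1 c10
  have g12 := agree_step g11.1 c11
  have g13 := agree_step g12.1 c12
  have g14 := agree_step g13.1 c13
  have g15 := agree_step g14.1 c14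
  have g16 := agree_step g15.1 c15
  have g17 := agree_step g16.1 c16
  have g18 := agree_step g17.1 c17
  have g19 := agree_step g18.1 c18
  have g20 := agree_step g19.1 c19
  have g21 := agree_step g20.1 c20
  have g22 := agree_step g21.1 c21
  have g23 := agree_step g22.1 c22
  have g24 := agree_step g23.1 c23
  have g25 := agree_step g24.1 c24
  have g26 := agree_step g25.1 c25
  have g27 := agree_step g26.1 c26
  have g28 := agree_step g27.1 c27
  have g29 := agree_step g28.1 c28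
  have g30 := agree_step g29.1 c29
  have g31 := agree_step g30.1 c30
  have g32 := agree_step g31.1 c31
  have g33 := agree_step g32.1 c32
  have g34 := agree_step g33.1 c33
  have g35 := agree_step g34.1 c34
  have g36 := agree_step g35.1 c35
  have g37 := agree_step g36.1 c36
  have g38 := agree_step g37.1 c37
  have g39 := agree_step g38.1 c38
  have g40 := agree_step g39.1 c39
  have g41 := agree_step g40.1 c40
  have g42 := agree_step g41.1 c41
  have g43 := agree_step g42.1 c42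
  refine ⟨g43.1, ?_, ?_⟩
  · simp only [Finset.sum_range_succ, Finset.sum_range_zero, g1.2.1, g2.2.1, g3.2.1, g4.2.1, g5.2.1, g6.2.1, g7.2.1, g8.2.1, g9.2.1, g10.2.1, g11.2.1, g12.2.1, g13.2.1, g14.2.1, g15.2.1, g16.2.1, g17.2.1, g18.2.1, g19.2.1, g20.2.1, g21.2.1, g22.2.1, g23.2.1, g24.2.1, g25.2.1, g26.2.1, g27.2.1, g28.2.1, g29.2.1, g30.2.1, g31.2.1, g32.2.1, g33.2.1, g34.2.1, g35.2.1, g36.2.1, g37.2.1, g38.2.1, g39.2.1, g40.2.1, g41.2.1, g42.2.1, g43.2.1]
  · simp only [Finset.sum_range_succ, Finset.sum_range_zero, g1.2.2, g2.2.2, g3.2.2, g4.2.2, g5.2.2, g6.2.2, g7.2.2, g8.2.2, g9.2.2, g10.2.2, g11.2.2, g12.2.2, g13.2.2, g14.2.2, g15.2.2, g16.2.2, g17.2.2, g18.2.2, g19.2.2, g20.2.2, g21.2.2, g22.2.2, g23.2.2, g24.2.2, g25.2.2, g26.2.2, g27.2.2, g28.2.2, g29.2.2, g30.2.2, g31.2.2, g32.2.2, g33.2.2, g34.2.2, g35.2.2, g36.2.2, g37.2.2, g38.2.2, g39.2.2, g40.2.2, g41.2.2, g42.2.2, g43.2.2]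

end LerchPrime
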