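import Mathlib
import Pool.Agent.H90.Lerch.Chain0

open Finset

namespace LerchPrime

/-- the tests linking the last vectors to the first ones -/
def linkA (i : ℕ) : Bool :=
  Nat.beq (lane X43 i) (lane X0 (Nat.succ i)) && (Nat.beq (lane Y43 i) (lane Y0 (Nat.succ i)) &&
    Nat.beq (lane Z43 i) (lane Z0 (Nat.succ i)))
theorem linkA_all : allB linkA 255 = true := by decide +kernel

def startB : Bool := Nat.beq (lane X0 0) 1 && (Nat.beq (lane Y0 0) 1 && Nat.beq (lane Z0 0) 0)
theorem startB_eq : startB = true := by decide +kernel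

/-- end state of lane 255 -/
def E255 : ℕ × ℕ × ℕ := (lane X43 255, lane Y43 255, lane Z43 255)

/-- scalar loop -/
def accW : ℕ → ℕ × ℕ × ℕ → ℕ
  | 0, _ => 0
  | n + 1, s => fW s + accW n (sstep s)
def accD : ℕ → ℕ × ℕ × ℕ → ℕ
  | 0, _ => 0
  | n + 1, s => fD s + accD n (sstep s)

theorem accW_eq (n : ℕ) (s : ℕ × ℕ × ℕ) : accW n s = ∑ u ∈ range n, fW (sstep^[u] s) := by
  induction n generalizing s with
  | zero => rfl
  | succ n ih =>
    rw [accW, ih, Finset.sum_range_succ', Nat.add_comm]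
    congr 1

theorem accD_eq (n : ℕ) (s : ℕ × ℕ × ℕ) : accD n s = ∑ u ∈ range n, fD (sstep^[u] s) := by
  induction n generalizing s with
  | zero => rfl
  | succ n ih =>
    rw [accD, ih, Finset.sum_range_succ', Nat.add_comm]
    congr 1

theorem accW_val : accW 249 E255 = 14499171082 := by decide +kernel
theorem accD_val : accD 249 E255 = 225837865689769795 := by decide +kernel

theorem T43_eq (hA : Agree 43 X43 Y43 Z43) : ∀ i < NL, T 43 i = (lane X43 i, lane Y43 i, lane Z43 i) := by
  intro i hi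
  unfold Agree at hA
  have hX := hA.1
  have hY := hA.2.1
  have hZ := hA.2.2
  have hok : ∀ j < NL, ok (T 43 j) := T_ok 43
  have e : ∀ v, lane v i = v / 2 ^ (64 * i) % 2 ^ 64 := fun v => lane_eq v i
  rw [e, e, e, hX, hY, hZ, EX, EY, EZ, enc_lane hi, enc_lane hi, enc_lane hi]
  · intro j hj; obtain ⟨k1, k2, k3, k4, k5⟩ := hok j hj; exact lt_trans k5 (by norm_num)
  · intro j hj; obtain ⟨k1, k2, k3, k4, k5⟩ := hok j hj; exact lt_trans k4 (by norm_num)
  · intro j hj; obtain ⟨k1, k2, k3, k4, k5⟩ := hok j hj; exact lt_of_le_of_lt k2 (by norm_num)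

theorem walk_add (m u : ℕ) : walk (m + u) = sstep^[u] (walk m) := by
  rw [walk, walk, ← Function.iterate_add_apply, Nat.add_comm]

theorem walk_add' (m u c : ℕ) (h : m + u = c) : sstep^[u] (walk m) = walk c := by
  rw [← walk_add, h]

theorem S0_walk (hA : Agree 43 X43 Y43 Z43) : ∀ i ≤ 255, S0 i = walk (82904 * i) := by
  intro i
  induction i with
  | zero =>
    intro _
    have h := startB_eq
    simp only [startB, Bool.and_eq_true, Nat.beq_eq] at h
    obtain ⟨h1, h2, h3⟩ := h
    rw [S0, stt, h1, h2, h3, Nat.mul_zero]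
    rfl
  | succ i ih =>
    intro hi
    have h1 := ih (by omega)
    have h2 := allB_spec linkA_all i (by omega)
    simp only [linkA, Bool.and_eq_true, Nat.beq_eq] at h2
    obtain ⟨h3, h4, h5⟩ := h2
    have h6 := T43_eq hA i (by rw [NL_eq]; omega)
    rw [h3, h4, h5] at h6
    have h7 : S0 (i + 1) = T 43 i := h6.symm
    rw [h7, T, h1]
    exact walk_add' _ _ _ (by omega)

theorem sum_blocks (c K : ℕ) (g : ℕ → ℕ) :
    ∑ k ∈ range K, ∑ u ∈ range c, g (c * k + u) = ∑ t ∈ range (c * K), g t := by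
  induction K with
  | zero => simp
  | succ K ih =>
    rw [Finset.sum_range_succ, ih, Nat.mul_succ, Finset.sum_range_add]

theorem total (hA : Agree 43 X43 Y43 Z43) (f : ℕ × ℕ × ℕ → ℕ) :
    ∑ k ∈ range 43, ∑ u ∈ range 1928, ∑ i ∈ range 512, f (sstep^[u] (T k i)) =
      2 * ∑ t ∈ range 21223424, f (walk t) := by
  have h1 : ∀ k u i, sstep^[u] (T k i) = sstep^[1928 * k + u] (S0 i) := by
    intro k u i
    have e : u + 1928 * k = 1928 * k + u := by ring
    rw [T, ← Function.iterate_add_apply, e]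
  simp only [h1]
  rw [sum_blocks 1928 43 (fun t => ∑ i ∈ range 512, f (sstep^[t] (S0 i))),
    show 1928 * 43 = 82904 by norm_num]
  have h2 : ∀ t, ∑ i ∈ range 512, f (sstep^[t] (S0 i)) = 2 * ∑ i ∈ range 256, f (walk (82904 * i + t)) := by
    intro t
    have h3 : ∑ i ∈ range 256, f (sstep^[t] (S0 (256 + i))) = ∑ i ∈ range 256, f (sstep^[t] (S0 i)) := by
      rw [← Finset.sum_range_reflect]
      apply Finset.sum_congr rfl
      intro i hi
      rw [mem_range] at hi
      have h4 := S0_sym i (by rw [NL_eq]; omega)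
      rw [NL_eq] at h4
      rw [← h4]
      have e : 256 + (256 - 1 - i) = 512 - 1 - i := by omega
      rw [e]
    have h5 : ∑ i ∈ range 256, f (sstep^[t] (S0 i)) = ∑ i ∈ range 256, f (walk (82904 * i + t)) := by
      apply Finset.sum_congr rfl
      intro i hi
      rw [mem_range] at hi
      rw [S0_walk hA i (by omega), walk_add]
    rw [show 512 = 256 + 256 by norm_num, Finset.sum_range_add, h3, ← two_mul, h5]
  simp only [h2]
  rw [← Finset.mul_sum, Finset.sum_comm, sum_blocks 82904 256 (fun t => f (walk t)),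
    show 82904 * 256 = 21223424 by norm_num]

theorem walk_end (hA : Agree 43 X43 Y43 Z43) (u : ℕ) : walk (21223424 + u) = sstep^[u] E255 := by
  have h6 := T43_eq hA 255 (by rw [NL_eq]; omega)
  rw [T, S0_walk hA 255 le_rfl, walk_add' _ _ 21223424 (by norm_num)] at h6
  rw [walk_add, h6, E255]

theorem final_sum (hA : Agree 43 X43 Y43 Z43) (f : ℕ × ℕ × ℕ → ℕ) :
    ∑ t ∈ range 21223673, f (walk t) = ∑ t ∈ range 21223424, f (walk t) +
      ∑ u ∈ range 249, f (sstep^[u] E255) := by
  have e : 21223673 = 21223424 + 249 := by norm_num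
  rw [e, Finset.sum_range_add]
  have h : ∀ u, f (walk (21223424 + u)) = f (sstep^[u] E255) := by
    intro u
    rw [walk_end hA]
  simp only [h]

end LerchPrime
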