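import Mathlib
import Pool.Agent.H90.Lerch.Final0
import Pool.Agent.H90.Lerch.Chain

open Finset

namespace LerchPrime

theorem orbit_W : ∑ t ∈ range 21223673, fW (walk t) = 1351286876300693 := by
  obtain ⟨hA, h1, -⟩ := chain
  have h2 : ∑ k ∈ range 43, SW k = 2 * ∑ t ∈ range 21223424, fW (walk t) := by
    rw [← total hA fW]
    apply Finset.sum_congr rfl
    intro k _
    rw [SW, Finset.sum_comm, NL_eq]
  rw [final_sum hA fW, ← accW_eq, accW_val]
  rw [h1] at h2
  revert h2
  generalize (∑ t ∈ range 21223424, fW (walk t)) = A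
  intro h2
  omega

theorem orbit_D : ∑ t ∈ range 21223673, fD (walk t) = 22303125342264100502464 := by
  obtain ⟨hA, -, h1⟩ := chain
  have h2 : ∑ k ∈ range 43, SD k = 2 * ∑ t ∈ range 21223424, fD (walk t) := by
    rw [← total hA fD]
    apply Finset.sum_congr rfl
    intro k _
    rw [SD, NL_eq]
  rw [final_sum hA fD, ← accD_eq, accD_val]
  rw [h1] at h2
  revert h2
  generalize (∑ t ∈ range 21223424, fD (walk t)) = A
  intro h2
  omega

theorem lerch_PP : (PP : ℤ) ^ 3 ∣
    (∑ a ∈ Icc 1 (PP - 1), (a : ℤ) ^ (PP - 1)) - PP - ((PP - 1).factorial : ℤ) := by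
  apply lerch_of_orbit 1351286876300693 22303125342264100502464
  · have h := orbit_W
    have e : ∑ t ∈ range 21223673, (2 * (walk t).2.2 + (walk t).2.1) =
        ∑ t ∈ range 21223673, fW (walk t) := rfl
    rw [e, h]
  · have h := orbit_D
    have e : ∑ t ∈ range 21223673, (walk t).2.2 * ((walk t).2.2 + (walk t).2.1) =
        ∑ t ∈ range 21223673, fD (walk t) := rfl
    rw [e, h]
  · decide +kernel

end LerchPrime
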